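import Mathlib
import Pool.Agent.U949.CL.Rho
import Pool.Agent.U949.CL.Dev
import Pool.Agent.U949.GS.Range

set_option autoImplicit false

/-!
# Exponentially small exceptional probabilities in random models of the primes

The question is whether every odd `n` is of the form `x² + y² + z² + 4w²` with natural numbers such that
`2 ^ x + 2 ^ y + 2 ^ z + 1` is prime.  In Cramér's model of the primes with a growing sieve (independent
choices; no `m` with a prime factor at most `z(m)` is chosen, the other `m` with probability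
`∏_{q ≤ z(m)} (1 - 1/q)⁻¹ / log m`) the probability that some `n ≥ N` is an exception, `n` odd without exceptional
primes in the range of the sieve, or only that the number `R(n)` of its quadruples differs from its mean by
the factor `1 ± η`, is at most `exp (-N ^ (1/2 - ε))` for all large `N`.
-/

open MeasureTheory ProbabilityTheory Filter
open scoped Topology

namespace Pool.Agent.Results.MP_f6c7cf_nt.ExceptionalProbabilities

/-- the quadruples of natural numbers with `n = x² + y² + z² + 4w²` -/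
def four (n : ℕ) : Set (ℕ × ℕ × ℕ × ℕ) :=
  {v | n = v.1 ^ 2 + v.2.1 ^ 2 + v.2.2.1 ^ 2 + 4 * v.2.2.2 ^ 2}

/-- the value `2 ^ x + 2 ^ y + 2 ^ z + 1` -/
def form (v : ℕ × ℕ × ℕ × ℕ) : ℕ := 2 ^ v.1 + 2 ^ v.2.1 + 2 ^ v.2.2.1 + 1

/-- the number of quadruples of natural numbers with `n = x² + y² + z² + 4w²` for which
`2 ^ x + 2 ^ y + 2 ^ z + 1` belongs to `S` -/
noncomputable def R (S : Set ℕ) (n : ℕ) : ℕ := {v | v ∈ four n ∧ form v ∈ S}.ncard

/-- `∏_{q ≤ x} (1 - 1/q)⁻¹`, `q` prime -/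
noncomputable def W (x : ℕ) : ℝ := ∏ q ∈ (Finset.Icc 1 x).filter Nat.Prime, (1 - (q : ℝ)⁻¹)⁻¹

open Classical in
/-- the probability that `m` is chosen: `W (z m) / log m` (at most `1`) if `m` has no prime factor at most
`z m`, and `0` otherwise -/
noncomputable def rho (z : ℕ → ℕ) (m : ℕ) : ℝ :=
  if ∀ q, q.Prime → q ≤ z m → ¬ q ∣ m then min 1 (W (z m) / Real.log m) else 0

/-- the expected number of quadruples: the sum of `rho (2 ^ x + 2 ^ y + 2 ^ z + 1)` over all quadruples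
with `n = x² + y² + z² + 4w²` -/
noncomputable def E (z : ℕ → ℕ) (n : ℕ) : ℝ := ∑ᶠ v ∈ four n, rho z (form v)

/-- the exceptional primes `q` of `n`: `l²` divides the order of `2` modulo `q` for a prime `l ≥ 5` with
`l ≡ 3 mod 4`, `l ∣ 9n - 8` (if `n ≡ 1 mod 4`) or `l ≡ 2 mod 3`, `l ∣ 3n - 8` (if `n ≡ 3 mod 4`), or `q = 113`
(`n ≡ 1 mod 4`, `n ≡ 4 mod 7`) or `q = 41` (`n ≡ 3 mod 4`, `n ≡ 1 mod 5`) -/
def Exceptional (n q : ℕ) : Prop := q.Prime ∧ q ≠ 2 ∧
  ((∃ l : ℕ, l.Prime ∧ 5 ≤ l ∧ l ^ 2 ∣ orderOf (2 : ZMod q) ∧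
    ((n % 4 = 1 ∧ l % 4 = 3 ∧ (l : ℤ) ∣ 9 * n - 8) ∨ (n % 4 = 3 ∧ l % 3 = 2 ∧ (l : ℤ) ∣ 3 * n - 8))) ∨
  ((n % 4 = 1 ∧ n % 7 = 4 ∧ q = 113) ∨ (n % 4 = 3 ∧ n % 5 = 1 ∧ q = 41)))

/-- `n` is odd and has no exceptional prime in the range of the sieve, that is, at most
`z (2 ^ x + 2 ^ y + 2 ^ z + 1)` for some quadruple of `n` -/
def Clear (z : ℕ → ℕ) (n : ℕ) : Prop :=
  Odd n ∧ ∀ v ∈ four n, ∀ q : ℕ, q ≤ z (form v) → ¬ Exceptional n q

/-- `n` is not divisible by the square of a prime between `c log n` and `(log n)²` -/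
def NoSquares (c : ℝ) (n : ℕ) : Prop :=
  ∀ l : ℕ, l.Prime → c * Real.log n < l → (l : ℝ) ≤ Real.log n ^ 2 → ¬ l ^ 2 ∣ n

/-- `n` is odd and no prime `l ≤ log n` with `l ≡ 3 mod 4` divides `9n - 8` (if `n ≡ 1 mod 4`), no prime `l`,
`5 ≤ l ≤ log n`, with `l ≡ 2 mod 3` divides `3n - 8` (if `n ≡ 3 mod 4`) -/
def Good (n : ℕ) : Prop := Odd n ∧
  (n % 4 = 1 → ∀ l : ℕ, l.Prime → l % 4 = 3 → (l : ℝ) ≤ Real.log n → ¬ (l : ℤ) ∣ 9 * n - 8) ∧
  (n % 4 = 3 → ∀ l : ℕ, l.Prime → 5 ≤ l → l % 3 = 2 → (l : ℝ) ≤ Real.log n → ¬ (l : ℤ) ∣ 3 * n - 8)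

/-- (1) `E(n) ≥ n ^ (1/2 - ε)` for all large `n` with the property `G`; (2) for every `η` with `0 < η ≤ 1` and all
large `N` the probability that `|R(n) - E(n)| ≥ η E(n)` for some `n ≥ N` with the property `G` is at most
`exp (-N ^ (1/2 - ε))`; (3) for all large `N` the probability that `R(n) = 0` for some `n ≥ N` with the
property `G` is at most `exp (-N ^ (1/2 - ε))` -/
def Law {Ω : Type} {mΩ : MeasurableSpace Ω} (μ : Measure Ω) (S : ℕ → Set Ω) (z : ℕ → ℕ) (ε : ℝ)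
    (G : ℕ → Prop) : Prop :=
  (∀ᶠ n : ℕ in atTop, G n → (n : ℝ) ^ (1 / 2 - ε) ≤ E z n) ∧
  (∀ η : ℝ, 0 < η → η ≤ 1 → ∀ᶠ N : ℕ in atTop, μ.real {ω | ∃ n, N ≤ n ∧ G n ∧
    η * E z n ≤ |(R {k | ω ∈ S k} n : ℝ) - E z n|} ≤ Real.exp (-(N : ℝ) ^ (1 / 2 - ε))) ∧
  (∀ᶠ N : ℕ in atTop, μ.real {ω | ∃ n, N ≤ n ∧ G n ∧ R {k | ω ∈ S k} n = 0} ≤
    Real.exp (-(N : ℝ) ^ (1 / 2 - ε)))

open Pool.Agent.R494.SPL Pool.Agent.U949.CL

lemma four_eq (n : ℕ) : four n = ((quad3 n : Finset (ℕ × ℕ × ℕ × ℕ)) : Set (ℕ × ℕ × ℕ × ℕ)) := by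
  ext v
  rw [Finset.mem_coe, mem_quad3]
  rfl

lemma E_eq (z : ℕ → ℕ) (n : ℕ) : E z n = Ex (Pool.Agent.N233.GM.rho1 z) (quad3 n) val3 := by
  unfold E
  rw [four_eq, finsum_mem_coe_finset]
  rfl

lemma R_eq {Ω : Type} {A : ℕ → Set Ω} (ω : Ω) (n : ℕ) :
    (R {k : ℕ | ω ∈ A k} n : ℝ) = Co A (quad3 n) val3 ω := by
  classical
  have h0 : {v | v ∈ four n ∧ form v ∈ {k : ℕ | ω ∈ A k}} =
      (((quad3 n).filter (fun v => ω ∈ A (val3 v)) : Finset (ℕ × ℕ × ℕ × ℕ)) : Set (ℕ × ℕ × ℕ × ℕ)) := by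
    ext v
    rw [Set.mem_ofPred_eq, four_eq, Finset.mem_coe, Finset.mem_coe, Finset.mem_filter]
    rfl
  unfold R Co
  rw [h0, Set.ncard_coe_finset, Finset.card_filter]
  push_cast
  refine Finset.sum_congr rfl fun v _ => ?_
  unfold I1
  by_cases h : ω ∈ A (val3 v)
  · simp [h]
  · simp [h]

lemma clear_iff {z : ℕ → ℕ} {n : ℕ} (h : Clear z n) : Pool.Agent.U949.GS.Clear2 z n := by
  intro v hv q hq hq2 hqz hexc
  exact h.2 v (by rw [four_eq]; exact hv) q hqz ⟨hq, hq2, hexc⟩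

lemma core {Ω : Type} [MeasurableSpace Ω] (μ : Measure Ω) [IsProbabilityMeasure μ]
    (S : ℕ → Set Ω) (hS : ∀ m, MeasurableSet (S m)) (hind : iIndepSet S μ) (z : ℕ → ℕ)
    (hp : ∀ m, μ.real (S m) = rho z m) (ε : ℝ) (hε : 0 < ε) (hε1 : ε < 1 / 2) (δ : ℝ) (hδ : δ ≤ ε / 2)
    (G : ℕ → Prop) (hE : ∀ᶠ n : ℕ in atTop, G n → 2 * (n : ℝ) ^ (1 / 2 - δ) ≤
      ∑ v ∈ quad3 n, Pool.Agent.N233.GM.rho1 z (val3 v)) : Law μ S z ε G := by
  classical
  have hE1 : ∀ᶠ n : ℕ in atTop, G n → (n : ℝ) ^ (1 / 2 - ε / 2) ≤ E z n := by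
    filter_upwards [hE, eventually_ge_atTop 1] with n h1 h2 hn
    have h3 := h1 hn
    have hn1 : (1 : ℝ) ≤ n := by exact_mod_cast h2
    have h4 : (0 : ℝ) < (n : ℝ) ^ (1 / 2 - δ) := Real.rpow_pos_of_pos (by linarith) _
    have h5 : (n : ℝ) ^ (1 / 2 - ε / 2) ≤ (n : ℝ) ^ (1 / 2 - δ) :=
      Real.rpow_le_rpow_of_exponent_le hn1 (by linarith)
    have h7 : E z n = ∑ v ∈ quad3 n, Pool.Agent.N233.GM.rho1 z (val3 v) := by
      rw [E_eq]
      rfl
    rw [h7]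
    linarith
  have hdev : ∀ η : ℝ, 0 < η → η ≤ 1 → ∀ᶠ N : ℕ in atTop, μ.real {ω | ∃ n, N ≤ n ∧ G n ∧
      η * E z n ≤ |(R {k | ω ∈ S k} n : ℝ) - E z n|} ≤ Real.exp (-(N : ℝ) ^ (1 / 2 - ε)) := by
    intro η hη hη1
    have e12 : ∀ᶠ n : ℕ in atTop, 12 ≤ (n : ℝ) ^ (ε / 4) :=
      ((tendsto_rpow_atTop (by positivity)).comp tendsto_natCast_atTop_atTop).eventually_ge_atTop _
    have h := tail (μ := μ) hS hind (Pool.Agent.N233.GM.rho1 z) (fun m => hp m) quad3 val3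
      (fun _ => 12) G (Eventually.of_forall fun _ => by norm_num)
      (Eventually.of_forall fun n _ m => by
        have h2 : (Pool.Agent.U949.CL.mult (quad3 n) val3 m : ℝ) ≤ ((12 : ℕ) : ℝ) := by
          exact_mod_cast fibre3 n m
        simpa using h2)
      (1 / 2 - 3 * ε / 4) (1 / 2 - ε) (by linarith) (by linarith)
      (by
        filter_upwards [hE1, eventually_ge_atTop 1, e12] with n h1 h2 h12 hn
        have hn0 : (0 : ℝ) < n := by exact_mod_cast h2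
        rw [← E_eq, le_div_iff₀ (by norm_num)]
        refine le_trans ?_ (h1 hn)
        calc (n : ℝ) ^ (1 / 2 - 3 * ε / 4) * 12 ≤ (n : ℝ) ^ (1 / 2 - 3 * ε / 4) * (n : ℝ) ^ (ε / 4) :=
              mul_le_mul_of_nonneg_left h12 (Real.rpow_nonneg hn0.le _)
          _ = (n : ℝ) ^ (1 / 2 - ε / 2) := by
            rw [← Real.rpow_add hn0]
            congr 1
            ring) η hη hη1
    filter_upwards [h] with N hN
    simp only [R_eq, E_eq]
    exact hN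
  refine ⟨?_, hdev, ?_⟩
  · filter_upwards [hE1, eventually_ge_atTop 1] with n h1 h2 hn
    refine le_trans ?_ (h1 hn)
    exact Real.rpow_le_rpow_of_exponent_le (by exact_mod_cast h2) (by linarith)
  · filter_upwards [hdev 1 one_pos le_rfl] with N h1
    refine le_trans (measureReal_mono ?_ (measure_ne_top _ _)) h1
    rintro ω ⟨n, g1, g2, g3⟩
    refine ⟨n, g1, g2, ?_⟩
    rw [g3, Nat.cast_zero, zero_sub, abs_neg, one_mul]
    exact le_abs_self _

/-- **Exceptional probabilities in random models of the primes.**  For every `ε` in `(0, 1/2)` there is `c > 0` such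
that the following holds.  Let `z(m)` be natural numbers, and let the events `S m` that `m` is chosen be
independent, with the probabilities `rho z m`, which is `min(1, ∏_{q ≤ z(m)} (1 - 1/q)⁻¹ / log m)` if `m` has
no prime factor at most `z(m)` and `0` otherwise.
(1) If `z m ≤ c t log t / log log t`, `t = log log m`, for all large `m`, then the `Law` holds for the odd `n`
without exceptional primes in the range of the sieve, and all large `Good` numbers are such.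
(2) The same, if `z m ≤ c (log log m) ^ 2` for all large `m`, for those `n` which are not divisible by the
square of a prime between `c log n` and `(log n) ^ 2`.
(3) If `z m ≤ 40` for all `m`, no odd `n` has exceptional primes in the range of the sieve; if `z m ≤ 100`, no
odd `n` with `n ≢ 11 mod 20`. -/
theorem result (ε : ℝ) (hε : 0 < ε) (hε1 : ε < 1 / 2) : ∃ c : ℝ, 0 < c ∧
    ∀ {Ω : Type} [MeasurableSpace Ω] (μ : Measure Ω) [IsProbabilityMeasure μ]
    (S : ℕ → Set Ω) (_ : ∀ m, MeasurableSet (S m)) (_ : iIndepSet S μ) (z : ℕ → ℕ)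
    (_ : ∀ m, μ.real (S m) = rho z m),
    ((∀ᶠ m : ℕ in atTop, (z m : ℝ) ≤ c * (Real.log (Real.log m) * Real.log (Real.log (Real.log m)) /
        Real.log (Real.log (Real.log (Real.log m))))) →
      Law μ S z ε (Clear z) ∧ ∀ᶠ n : ℕ in atTop, Good n → Clear z n) ∧
    ((∀ᶠ m : ℕ in atTop, (z m : ℝ) ≤ c * Real.log (Real.log m) ^ 2) →
      Law μ S z ε (fun n => Clear z n ∧ NoSquares c n) ∧ ∀ᶠ n : ℕ in atTop, Good n → Clear z n) ∧
    ((∀ m, z m ≤ 40) → ∀ n, Odd n → Clear z n) ∧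
    ((∀ m, z m ≤ 100) → ∀ n, Odd n → n % 20 ≠ 11 → Clear z n) := by
  classical
  set δ : ℝ := ε / 2 with hδ
  have hδ0 : 0 < δ := by positivity
  obtain ⟨n1, hlow⟩ := Pool.Agent.U949.GS.low_E3 δ hδ0 (by linarith)
  obtain ⟨cA, hcA, nA, hA⟩ := Pool.Agent.U949.GS.setsA (δ / 2) (by positivity)
  obtain ⟨cB, hcB, nB, hB⟩ := Pool.Agent.U949.GS.setsB (δ / 2) (by positivity)
  refine ⟨min 1 (min cA cB), by positivity, ?_⟩
  intro Ω _ μ _ S hS hind z hp
  set c := min 1 (min cA cB) with hc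
  have hc0 : 0 < c := by positivity
  have hc1 : c ≤ 1 := min_le_left _ _
  have hcA' : c ≤ cA := (min_le_right _ _).trans (min_le_left _ _)
  have hcB' : c ≤ cB := (min_le_right _ _).trans (min_le_right _ _)
  have hgood : (∀ᶠ m : ℕ in atTop, (z m : ℝ) ≤ c * Real.log (Real.log m) ^ 2) →
      ∀ᶠ n : ℕ in atTop, Good n → Clear z n := by
    intro hz
    have hz' : ∀ᶠ m : ℕ in atTop, (z m : ℝ) ≤ Real.log (Real.log m) ^ 2 := by
      filter_upwards [hz] with m h1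
      refine h1.trans ?_
      have := sq_nonneg (Real.log (Real.log (m : ℝ)))
      nlinarith
    filter_upwards [Pool.Agent.U949.GS.good_clear z hz'] with n h1 h2
    refine ⟨h2.1, fun v hv q hqz hexc => ?_⟩
    rw [four_eq] at hv
    exact h1 ⟨h2.2.1, h2.2.2⟩ v hv q hexc.1 hqz hexc.2.1 hexc.2.2
  refine ⟨fun hz => ?_, fun hz => ?_, fun hz n hn => ?_, fun hz n hn hn20 => ?_⟩
  · have hzL : ∀ᶠ m : ℕ in atTop, (z m : ℝ) ≤ c * Pool.Agent.U949.GS.L (Real.log (Real.log m)) := hz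
    have hsq := Pool.Agent.U949.GS.L_to_sq c hc0 z hzL
    refine ⟨core μ S hS hind z hp ε hε hε1 δ le_rfl _ ?_, hgood hsq⟩
    filter_upwards [eventually_ge_atTop n1, eventually_ge_atTop nA,
      Pool.Agent.U949.GS.range_L c hc0 z hzL,
      (Real.tendsto_log_atTop.comp tendsto_natCast_atTop_atTop).eventually Pool.Agent.U949.GS.L_le_sq]
      with n h1 h2 h3 h4 hG
    refine hlow n h1 _ ?_ z (clear_iff hG) h3
    obtain ⟨T, t1, t2, t3⟩ := hA n h2 hG.1
    refine ⟨T, t1, t2, fun v hv q hq hqd hqy => t3 v hv q hq hqd (hqy.trans ?_)⟩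
    have h5 : 0 ≤ Pool.Agent.U949.GS.L (Real.log n) := h4.2
    exact mul_le_mul_of_nonneg_right hcA' h5
  · refine ⟨core μ S hS hind z hp ε hε hε1 δ le_rfl _ ?_, hgood hz⟩
    filter_upwards [eventually_ge_atTop n1, eventually_ge_atTop nB,
      Pool.Agent.U949.GS.range_sq c hc0 z hz, eventually_ge_atTop 1]
      with n h1 h2 h3 h4 hG
    refine hlow n h1 _ ?_ z (clear_iff hG.1) h3
    have hln : 0 ≤ Real.log (n : ℝ) := Real.log_nonneg (by exact_mod_cast h4)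
    obtain ⟨T, t1, t2, t3⟩ := hB n h2 hG.1.1 (fun l hl hl1 hl2 => hG.2 l hl (lt_of_le_of_lt
      (mul_le_mul_of_nonneg_right hcB' hln) hl1) hl2)
    refine ⟨T, t1, t2, fun v hv q hq hqd hqy => t3 v hv q hq hqd (hqy.trans ?_)⟩
    exact mul_le_mul_of_nonneg_right hcB' (sq_nonneg _)
  · refine ⟨hn, fun v hv q hqz hexc => ?_⟩
    have h1 := hqz.trans (hz _)
    have h2 := Pool.Agent.U949.GS.exc_small hexc.1 hexc.2.1 hexc.2.2 (by omega)
    omega
  · refine ⟨hn, fun v hv q hqz hexc => ?_⟩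
    have h1 := hqz.trans (hz _)
    have h2 := Pool.Agent.U949.GS.exc_small hexc.1 hexc.2.1 hexc.2.2 h1
    exact hn20 h2.2

end Pool.Agent.Results.MP_f6c7cf_nt.ExceptionalProbabilities
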