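import Mathlib
import Pool.Agent.U949.CL.Rho
import Pool.Agent.U949.CL.Fluct2
import Pool.Agent.U949.GS.Range

set_option autoImplicit false

/-!
# Gaussian fluctuations of the number of quadruples in random models of the primes

The question is whether every odd `n` is of the form `x² + y² + z² + 4w²` with natural numbers such that
`2 ^ x + 2 ^ y + 2 ^ z + 1` is prime.  In Cramér's model of the primes with a growing sieve (independent
choices; no `m` with a prime factor at most `z(m)` is chosen, the other `m` with probability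
`∏_{q ≤ z(m)} (1 - 1/q)⁻¹ / log m`) the number `R(n)` of such quadruples is asymptotically normal, with mean
`E(n)` and an explicit variance `V(n)`, as `n → ∞` through the odd numbers without exceptional primes in the
range of the sieve, and almost surely `|R(n) - E(n)| ≤ 3 √(V(n) log n)` for all large such `n`.
-/

open MeasureTheory ProbabilityTheory Filter
open scoped Topology

namespace Pool.Agent.Results.MP_f6c7cf_nt.GaussianFluctuations

/-- the quadruples of natural numbers with `n = x² + y² + z² + 4w²` -/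
def four (n : ℕ) : Set (ℕ × ℕ × ℕ × ℕ) :=
  {v | n = v.1 ^ 2 + v.2.1 ^ 2 + v.2.2.1 ^ 2 + 4 * v.2.2.2 ^ 2}

/-- the value `2 ^ x + 2 ^ y + 2 ^ z + 1` -/
def form (v : ℕ × ℕ × ℕ × ℕ) : ℕ := 2 ^ v.1 + 2 ^ v.2.1 + 2 ^ v.2.2.1 + 1

/-- the number of quadruples of natural numbers with `n = x² + y² + z² + 4w²` for which
`2 ^ x + 2 ^ y + 2 ^ z + 1` belongs to `S` -/
noncomputable def R (S : Set ℕ) (n : ℕ) : ℕ := {v | v ∈ four n ∧ form v ∈ S}.ncard

/-- `∏_{q ≤ x} (1 - 1/q)⁻¹`, `q` prime -/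
noncomputable def W (x : ℕ) : ℝ := ∏ q ∈ (Finset.Icc 1 x).filter Nat.Prime, (1 - (q : ℝ)⁻¹)⁻¹

open Classical in
/-- the probability that `m` is chosen: `W (z m) / log m` (at most `1`) if `m` has no prime factor at most
`z m`, and `0` otherwise -/
noncomputable def rho (z : ℕ → ℕ) (m : ℕ) : ℝ :=
  if ∀ q, q.Prime → q ≤ z m → ¬ q ∣ m then min 1 (W (z m) / Real.log m) else 0

/-- the expected number of quadruples: the sum of `rho (2 ^ x + 2 ^ y + 2 ^ z + 1)` over all quadruples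
with `n = x² + y² + z² + 4w²` -/
noncomputable def E (z : ℕ → ℕ) (n : ℕ) : ℝ := ∑ᶠ v ∈ four n, rho z (form v)

/-- the number of quadruples of `n` with the value `m` -/
noncomputable def mult (n m : ℕ) : ℕ := {v | v ∈ four n ∧ form v = m}.ncard

/-- the variance of the number of quadruples: the sum of `mult(n, m)² rho(m) (1 - rho(m))` over all values
`m` of quadruples of `n` -/
noncomputable def V (z : ℕ → ℕ) (n : ℕ) : ℝ :=
  ∑ᶠ m ∈ form '' four n, (mult n m : ℝ) ^ 2 * (rho z m * (1 - rho z m))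

/-- the exceptional primes `q` of `n`: `l²` divides the order of `2` modulo `q` for a prime `l ≥ 5` with
`l ≡ 3 mod 4`, `l ∣ 9n - 8` (if `n ≡ 1 mod 4`) or `l ≡ 2 mod 3`, `l ∣ 3n - 8` (if `n ≡ 3 mod 4`), or `q = 113`
(`n ≡ 1 mod 4`, `n ≡ 4 mod 7`) or `q = 41` (`n ≡ 3 mod 4`, `n ≡ 1 mod 5`) -/
def Exceptional (n q : ℕ) : Prop := q.Prime ∧ q ≠ 2 ∧
  ((∃ l : ℕ, l.Prime ∧ 5 ≤ l ∧ l ^ 2 ∣ orderOf (2 : ZMod q) ∧
    ((n % 4 = 1 ∧ l % 4 = 3 ∧ (l : ℤ) ∣ 9 * n - 8) ∨ (n % 4 = 3 ∧ l % 3 = 2 ∧ (l : ℤ) ∣ 3 * n - 8))) ∨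
  ((n % 4 = 1 ∧ n % 7 = 4 ∧ q = 113) ∨ (n % 4 = 3 ∧ n % 5 = 1 ∧ q = 41)))

/-- `n` is odd and has no exceptional prime in the range of the sieve, that is, at most
`z (2 ^ x + 2 ^ y + 2 ^ z + 1)` for some quadruple of `n` -/
def Clear (z : ℕ → ℕ) (n : ℕ) : Prop :=
  Odd n ∧ ∀ v ∈ four n, ∀ q : ℕ, q ≤ z (form v) → ¬ Exceptional n q

/-- `n` is not divisible by the square of a prime between `c log n` and `(log n)²` -/
def NoSquares (c : ℝ) (n : ℕ) : Prop :=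
  ∀ l : ℕ, l.Prime → c * Real.log n < l → (l : ℝ) ≤ Real.log n ^ 2 → ¬ l ^ 2 ∣ n

/-- `n` is odd and no prime `l ≤ log n` with `l ≡ 3 mod 4` divides `9n - 8` (if `n ≡ 1 mod 4`), no prime `l`,
`5 ≤ l ≤ log n`, with `l ≡ 2 mod 3` divides `3n - 8` (if `n ≡ 3 mod 4`) -/
def Good (n : ℕ) : Prop := Odd n ∧
  (n % 4 = 1 → ∀ l : ℕ, l.Prime → l % 4 = 3 → (l : ℝ) ≤ Real.log n → ¬ (l : ℤ) ∣ 9 * n - 8) ∧
  (n % 4 = 3 → ∀ l : ℕ, l.Prime → 5 ≤ l → l % 3 = 2 → (l : ℝ) ≤ Real.log n → ¬ (l : ℤ) ∣ 3 * n - 8)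

/-- (1) `E(n) ≥ n ^ (1/2 - ε)` and `E(n) / 4 ≤ V(n) ≤ 12 E(n)` for all large `n` with the property `G`;
(2) for every real `x` the probability of `R(n) - E(n) ≤ x √V(n)` tends to `Φ(x)` as `n → ∞`, `n` with the
property `G`, where `Φ` is the distribution function of the standard normal law; (3) almost surely
`|R(n) - E(n)| ≤ 3 √(V(n) log n)` for all large `n` with the property `G` -/
def Law {Ω : Type} {mΩ : MeasurableSpace Ω} (μ : Measure Ω) (S : ℕ → Set Ω) (z : ℕ → ℕ) (ε : ℝ)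
    (G : ℕ → Prop) : Prop :=
  (∀ᶠ n : ℕ in atTop, G n → (n : ℝ) ^ (1 / 2 - ε) ≤ E z n ∧ E z n / 4 ≤ V z n ∧ V z n ≤ 12 * E z n) ∧
  (∀ x : ℝ, Tendsto (fun n : ℕ => μ.real {ω | (R {k | ω ∈ S k} n : ℝ) - E z n ≤ x * √(V z n)})
    (atTop ⊓ 𝓟 {n : ℕ | G n}) (𝓝 ((gaussianReal 0 1).real (Set.Iic x)))) ∧
  (∀ᵐ ω ∂μ, ∀ᶠ n : ℕ in atTop, G n →
    |(R {k | ω ∈ S k} n : ℝ) - E z n| ≤ 3 * √(V z n * Real.log n))

open Pool.Agent.R494.SPL Pool.Agent.U949.CL

lemma four_eq (n : ℕ) : four n = ((quad3 n : Finset (ℕ × ℕ × ℕ × ℕ)) : Set (ℕ × ℕ × ℕ × ℕ)) := by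
  ext v
  rw [Finset.mem_coe, mem_quad3]
  rfl

lemma E_eq (z : ℕ → ℕ) (n : ℕ) : E z n = Ex (Pool.Agent.N233.GM.rho1 z) (quad3 n) val3 := by
  unfold E
  rw [four_eq, finsum_mem_coe_finset]
  rfl

lemma mult_eq (n m : ℕ) : mult n m = Pool.Agent.U949.CL.mult (quad3 n) val3 m := by
  classical
  have h0 : {v | v ∈ four n ∧ form v = m} =
      (((quad3 n).filter (fun v => val3 v = m) : Finset (ℕ × ℕ × ℕ × ℕ)) : Set (ℕ × ℕ × ℕ × ℕ)) := by
    ext v
    rw [Set.mem_ofPred_eq, four_eq, Finset.mem_coe, Finset.mem_coe, Finset.mem_filter]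
    rfl
  unfold mult Pool.Agent.U949.CL.mult
  rw [h0, Set.ncard_coe_finset]

lemma V_eq (z : ℕ → ℕ) (n : ℕ) : V z n = Va (Pool.Agent.N233.GM.rho1 z) (quad3 n) val3 := by
  classical
  unfold V
  have : form '' four n = (((quad3 n).image val3 : Finset ℕ) : Set ℕ) := by
    rw [four_eq, Finset.coe_image]
    rfl
  rw [this, finsum_mem_coe_finset]
  unfold Va
  refine Finset.sum_congr rfl fun m _ => ?_
  rw [mult_eq]
  rfl

lemma R_eq {Ω : Type} {A : ℕ → Set Ω} (ω : Ω) (n : ℕ) :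
    (R {k : ℕ | ω ∈ A k} n : ℝ) = Co A (quad3 n) val3 ω := by
  classical
  have h0 : {v | v ∈ four n ∧ form v ∈ {k : ℕ | ω ∈ A k}} =
      (((quad3 n).filter (fun v => ω ∈ A (val3 v)) : Finset (ℕ × ℕ × ℕ × ℕ)) : Set (ℕ × ℕ × ℕ × ℕ)) := by
    ext v
    rw [Set.mem_ofPred_eq, four_eq, Finset.mem_coe, Finset.mem_coe, Finset.mem_filter]
    rfl
  unfold R Co
  rw [h0, Set.ncard_coe_finset, Finset.card_filter]
  push_cast
  refine Finset.sum_congr rfl fun v _ => ?_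
  unfold I1
  by_cases h : ω ∈ A (val3 v)
  · simp [h]
  · simp [h]

lemma clear_iff {z : ℕ → ℕ} {n : ℕ} (h : Clear z n) : Pool.Agent.U949.GS.Clear2 z n := by
  intro v hv q hq hq2 hqz hexc
  exact h.2 v (by rw [four_eq]; exact hv) q hqz ⟨hq, hq2, hexc⟩

lemma core {Ω : Type} [MeasurableSpace Ω] (μ : Measure Ω) [IsProbabilityMeasure μ]
    (S : ℕ → Set Ω) (hS : ∀ m, MeasurableSet (S m)) (hind : iIndepSet S μ) (z : ℕ → ℕ) (c : ℝ)
    (hz : ∀ᶠ m : ℕ in atTop, (z m : ℝ) ≤ c * Real.log (Real.log m) ^ 2)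
    (hp : ∀ m, μ.real (S m) = rho z m) (δ ε : ℝ) (hδ1 : δ ≤ 1 / 16) (hδε : δ ≤ ε) (G : ℕ → Prop)
    (hE : ∀ᶠ n : ℕ in atTop, G n → 2 * (n : ℝ) ^ (1 / 2 - δ) ≤
      ∑ v ∈ quad3 n, Pool.Agent.N233.GM.rho1 z (val3 v)) : Law μ S z ε G := by
  classical
  have hE1 : ∀ᶠ n : ℕ in atTop, G n → (n : ℝ) ^ (1 / 2 - ε) ≤ E z n ∧
      (n : ℝ) ^ (7 / 16 : ℝ) ≤ E z n := by
    filter_upwards [hE, eventually_ge_atTop 1] with n h1 h2 hn
    have h3 := h1 hn
    have hn1 : (1 : ℝ) ≤ n := by exact_mod_cast h2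
    have h4 : (0 : ℝ) < (n : ℝ) ^ (1 / 2 - δ) := Real.rpow_pos_of_pos (by linarith) _
    have h5 : (n : ℝ) ^ (1 / 2 - ε) ≤ (n : ℝ) ^ (1 / 2 - δ) :=
      Real.rpow_le_rpow_of_exponent_le hn1 (by linarith)
    have h6 : (n : ℝ) ^ (7 / 16 : ℝ) ≤ (n : ℝ) ^ (1 / 2 - δ) :=
      Real.rpow_le_rpow_of_exponent_le hn1 (by linarith)
    have h7 : E z n = ∑ v ∈ quad3 n, Pool.Agent.N233.GM.rho1 z (val3 v) := by
      rw [E_eq]
      rfl
    rw [h7]
    constructor <;> linarith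
  obtain ⟨r1, r2, r3⟩ := fluct12 S hS hind (Pool.Agent.N233.GM.rho1 z) (fun m => hp m) (rho1_half c z hz)
    quad3 val3 G (fun n m => by exact_mod_cast fibre3 n m)
    (by
      filter_upwards [hE1] with n h1 hn
      rw [← E_eq]
      exact (h1 hn).2)
  refine ⟨?_, fun x => ?_, ?_⟩
  · filter_upwards [hE1, r1] with n h1 h2 hn
    rw [← E_eq, ← V_eq] at h2
    exact ⟨(h1 hn).1, (h2 hn).1, (h2 hn).2⟩
  · refine (r2 x).congr fun n => ?_
    simp only [R_eq, E_eq, V_eq]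
  · filter_upwards [r3] with ω hω
    simp only [R_eq, E_eq, V_eq]
    exact hω

/-- **Gaussian fluctuations in random models of the primes.**  For every `ε > 0` there is `c > 0` such
that the following holds.  Let `z(m)` be natural numbers, and let the events `S m` that `m` is chosen be
independent, with the probabilities `rho z m`, which is `min(1, ∏_{q ≤ z(m)} (1 - 1/q)⁻¹ / log m)` if `m` has
no prime factor at most `z(m)` and `0` otherwise.
(1) If `z m ≤ c t log t / log log t`, `t = log log m`, for all large `m`, then the `Law` holds for the odd `n`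
without exceptional primes in the range of the sieve, and all large `Good` numbers are such.
(2) The same, if `z m ≤ c (log log m) ^ 2` for all large `m`, for those `n` which are not divisible by the
square of a prime between `c log n` and `(log n) ^ 2`.
(3) If `z m ≤ 40` for all `m`, no odd `n` has exceptional primes in the range of the sieve; if `z m ≤ 100`, no
odd `n` with `n ≢ 11 mod 20`. -/
theorem result (ε : ℝ) (hε : 0 < ε) : ∃ c : ℝ, 0 < c ∧
    ∀ {Ω : Type} [MeasurableSpace Ω] (μ : Measure Ω) [IsProbabilityMeasure μ]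
    (S : ℕ → Set Ω) (_ : ∀ m, MeasurableSet (S m)) (_ : iIndepSet S μ) (z : ℕ → ℕ)
    (_ : ∀ m, μ.real (S m) = rho z m),
    ((∀ᶠ m : ℕ in atTop, (z m : ℝ) ≤ c * (Real.log (Real.log m) * Real.log (Real.log (Real.log m)) /
        Real.log (Real.log (Real.log (Real.log m))))) →
      Law μ S z ε (Clear z) ∧ ∀ᶠ n : ℕ in atTop, Good n → Clear z n) ∧
    ((∀ᶠ m : ℕ in atTop, (z m : ℝ) ≤ c * Real.log (Real.log m) ^ 2) →
      Law μ S z ε (fun n => Clear z n ∧ NoSquares c n) ∧ ∀ᶠ n : ℕ in atTop, Good n → Clear z n) ∧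
    ((∀ m, z m ≤ 40) → ∀ n, Odd n → Clear z n) ∧
    ((∀ m, z m ≤ 100) → ∀ n, Odd n → n % 20 ≠ 11 → Clear z n) := by
  classical
  set δ : ℝ := min ε (1 / 16) with hδ
  have hδ0 : 0 < δ := lt_min hε (by norm_num)
  have hδ1 : δ ≤ 1 / 16 := min_le_right _ _
  have hδε : δ ≤ ε := min_le_left _ _
  obtain ⟨n1, hlow⟩ := Pool.Agent.U949.GS.low_E3 δ hδ0 (by linarith)
  obtain ⟨cA, hcA, nA, hA⟩ := Pool.Agent.U949.GS.setsA (δ / 2) (by positivity)
  obtain ⟨cB, hcB, nB, hB⟩ := Pool.Agent.U949.GS.setsB (δ / 2) (by positivity)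
  refine ⟨min 1 (min cA cB), by positivity, ?_⟩
  intro Ω _ μ _ S hS hind z hp
  set c := min 1 (min cA cB) with hc
  have hc0 : 0 < c := by positivity
  have hc1 : c ≤ 1 := min_le_left _ _
  have hcA' : c ≤ cA := (min_le_right _ _).trans (min_le_left _ _)
  have hcB' : c ≤ cB := (min_le_right _ _).trans (min_le_right _ _)
  have hgood : (∀ᶠ m : ℕ in atTop, (z m : ℝ) ≤ c * Real.log (Real.log m) ^ 2) →
      ∀ᶠ n : ℕ in atTop, Good n → Clear z n := by
    intro hz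
    have hz' : ∀ᶠ m : ℕ in atTop, (z m : ℝ) ≤ Real.log (Real.log m) ^ 2 := by
      filter_upwards [hz] with m h1
      refine h1.trans ?_
      have := sq_nonneg (Real.log (Real.log (m : ℝ)))
      nlinarith
    filter_upwards [Pool.Agent.U949.GS.good_clear z hz'] with n h1 h2
    refine ⟨h2.1, fun v hv q hqz hexc => ?_⟩
    rw [four_eq] at hv
    exact h1 ⟨h2.2.1, h2.2.2⟩ v hv q hexc.1 hqz hexc.2.1 hexc.2.2
  refine ⟨fun hz => ?_, fun hz => ?_, fun hz n hn => ?_, fun hz n hn hn20 => ?_⟩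
  · have hzL : ∀ᶠ m : ℕ in atTop, (z m : ℝ) ≤ c * Pool.Agent.U949.GS.L (Real.log (Real.log m)) := hz
    have hsq := Pool.Agent.U949.GS.L_to_sq c hc0 z hzL
    refine ⟨core μ S hS hind z c hsq hp δ ε hδ1 hδε _ ?_, hgood hsq⟩
    filter_upwards [eventually_ge_atTop n1, eventually_ge_atTop nA,
      Pool.Agent.U949.GS.range_L c hc0 z hzL,
      (Real.tendsto_log_atTop.comp tendsto_natCast_atTop_atTop).eventually Pool.Agent.U949.GS.L_le_sq]
      with n h1 h2 h3 h4 hG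
    refine hlow n h1 _ ?_ z (clear_iff hG) h3
    obtain ⟨T, t1, t2, t3⟩ := hA n h2 hG.1
    refine ⟨T, t1, t2, fun v hv q hq hqd hqy => t3 v hv q hq hqd (hqy.trans ?_)⟩
    have h5 : 0 ≤ Pool.Agent.U949.GS.L (Real.log n) := h4.2
    exact mul_le_mul_of_nonneg_right hcA' h5
  · refine ⟨core μ S hS hind z c hz hp δ ε hδ1 hδε _ ?_, hgood hz⟩
    filter_upwards [eventually_ge_atTop n1, eventually_ge_atTop nB,
      Pool.Agent.U949.GS.range_sq c hc0 z hz, eventually_ge_atTop 1]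
      with n h1 h2 h3 h4 hG
    refine hlow n h1 _ ?_ z (clear_iff hG.1) h3
    have hln : 0 ≤ Real.log (n : ℝ) := Real.log_nonneg (by exact_mod_cast h4)
    obtain ⟨T, t1, t2, t3⟩ := hB n h2 hG.1.1 (fun l hl hl1 hl2 => hG.2 l hl (lt_of_le_of_lt
      (mul_le_mul_of_nonneg_right hcB' hln) hl1) hl2)
    refine ⟨T, t1, t2, fun v hv q hq hqd hqy => t3 v hv q hq hqd (hqy.trans ?_)⟩
    exact mul_le_mul_of_nonneg_right hcB' (sq_nonneg _)
  · refine ⟨hn, fun v hv q hqz hexc => ?_⟩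
    have h1 := hqz.trans (hz _)
    have h2 := Pool.Agent.U949.GS.exc_small hexc.1 hexc.2.1 hexc.2.2 (by omega)
    omega
  · refine ⟨hn, fun v hv q hqz hexc => ?_⟩
    have h1 := hqz.trans (hz _)
    have h2 := Pool.Agent.U949.GS.exc_small hexc.1 hexc.2.1 hexc.2.2 h1
    exact hn20 h2.2

end Pool.Agent.Results.MP_f6c7cf_nt.GaussianFluctuations
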