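import Mathlib
import Pool.Agent.U949.GS.Range

set_option autoImplicit false

/-!
# The question in random models of the primes with a growing sieve

The question is whether every odd `n` is of the form `x² + y² + z² + 4w²` with natural numbers such that
`2 ^ x + 2 ^ y + 2 ^ z + 1` is prime.  We answer it in random models of the primes with a growing sieve, for
all large odd `n` without exceptional primes in the range of the sieve: the integers are decided one after the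
other, no `m` with a prime factor at most `z(m)` is chosen, and the conditional probability of choosing `m + 1`
(without prime factors at most `z(m + 1)`) given the past is asymptotic to
`∏_{q ≤ z(m + 1)} (1 - 1/q)⁻¹ / log m`.  No independence and no rate is assumed.  The range of the sieve is
`c t log t / log log t`, `t = log log m`, or `c t²` (then `n` must not be divisible by the square of a prime
between `c log n` and `(log n)²`).
-/

open MeasureTheory Filter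
open scoped Topology

namespace Pool.Agent.Results.MP_f6c7cf_nt.GrowingSieveModels

/-- the quadruples of natural numbers with `n = x² + y² + z² + 4w²` -/
def four (n : ℕ) : Set (ℕ × ℕ × ℕ × ℕ) :=
  {v | n = v.1 ^ 2 + v.2.1 ^ 2 + v.2.2.1 ^ 2 + 4 * v.2.2.2 ^ 2}

/-- the value `2 ^ x + 2 ^ y + 2 ^ z + 1` -/
def form (v : ℕ × ℕ × ℕ × ℕ) : ℕ := 2 ^ v.1 + 2 ^ v.2.1 + 2 ^ v.2.2.1 + 1

/-- the number of quadruples of natural numbers with `n = x² + y² + z² + 4w²` for which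
`2 ^ x + 2 ^ y + 2 ^ z + 1` belongs to `S` -/
noncomputable def R (S : Set ℕ) (n : ℕ) : ℕ := {v | v ∈ four n ∧ form v ∈ S}.ncard

/-- `∏_{q ≤ x} (1 - 1/q)⁻¹`, `q` prime -/
noncomputable def W (x : ℕ) : ℝ := ∏ q ∈ (Finset.Icc 1 x).filter Nat.Prime, (1 - (q : ℝ)⁻¹)⁻¹

open Classical in
/-- the density of the model at `m`: `W (z m) / log m` if `m` has no prime factor at most `z m`, and `0`
otherwise -/
noncomputable def rho (z : ℕ → ℕ) (m : ℕ) : ℝ :=
  if ∀ q, q.Prime → q ≤ z m → ¬ q ∣ m then W (z m) / Real.log m else 0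

/-- the expected number of quadruples: the sum of `rho (2 ^ x + 2 ^ y + 2 ^ z + 1)` over all quadruples
with `n = x² + y² + z² + 4w²` -/
noncomputable def E (z : ℕ → ℕ) (n : ℕ) : ℝ := ∑ᶠ v ∈ four n, rho z (form v)

/-- the exceptional primes `q` of `n`: `l²` divides the order of `2` modulo `q` for a prime `l ≥ 5` with
`l ≡ 3 mod 4`, `l ∣ 9n - 8` (if `n ≡ 1 mod 4`) or `l ≡ 2 mod 3`, `l ∣ 3n - 8` (if `n ≡ 3 mod 4`), or `q = 113`
(`n ≡ 1 mod 4`, `n ≡ 4 mod 7`) or `q = 41` (`n ≡ 3 mod 4`, `n ≡ 1 mod 5`) -/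
def Exceptional (n q : ℕ) : Prop := q.Prime ∧ q ≠ 2 ∧
  ((∃ l : ℕ, l.Prime ∧ 5 ≤ l ∧ l ^ 2 ∣ orderOf (2 : ZMod q) ∧
    ((n % 4 = 1 ∧ l % 4 = 3 ∧ (l : ℤ) ∣ 9 * n - 8) ∨ (n % 4 = 3 ∧ l % 3 = 2 ∧ (l : ℤ) ∣ 3 * n - 8))) ∨
  ((n % 4 = 1 ∧ n % 7 = 4 ∧ q = 113) ∨ (n % 4 = 3 ∧ n % 5 = 1 ∧ q = 41)))

/-- `n` is odd and has no exceptional prime in the range of the sieve, that is, at most
`z (2 ^ x + 2 ^ y + 2 ^ z + 1)` for some quadruple of `n` -/
def Clear (z : ℕ → ℕ) (n : ℕ) : Prop :=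
  Odd n ∧ ∀ v ∈ four n, ∀ q : ℕ, q ≤ z (form v) → ¬ Exceptional n q

/-- `n` is not divisible by the square of a prime between `c log n` and `(log n)²` -/
def NoSquares (c : ℝ) (n : ℕ) : Prop :=
  ∀ l : ℕ, l.Prime → c * Real.log n < l → (l : ℝ) ≤ Real.log n ^ 2 → ¬ l ^ 2 ∣ n

/-- `n` is odd and no prime `l ≤ log n` with `l ≡ 3 mod 4` divides `9n - 8` (if `n ≡ 1 mod 4`), no prime `l`,
`5 ≤ l ≤ log n`, with `l ≡ 2 mod 3` divides `3n - 8` (if `n ≡ 3 mod 4`) -/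
def Good (n : ℕ) : Prop := Odd n ∧
  (n % 4 = 1 → ∀ l : ℕ, l.Prime → l % 4 = 3 → (l : ℝ) ≤ Real.log n → ¬ (l : ℤ) ∣ 9 * n - 8) ∧
  (n % 4 = 3 → ∀ l : ℕ, l.Prime → 5 ≤ l → l % 3 = 2 → (l : ℝ) ≤ Real.log n → ¬ (l : ℤ) ∣ 3 * n - 8)

/-- the random models of the primes with the sieve `z` -/
def Model {Ω : Type} {mΩ : MeasurableSpace Ω} (μ : Measure Ω) (ℱ : Filtration ℕ mΩ) (S : ℕ → Set Ω)
    (z : ℕ → ℕ) : Prop :=
  (∀ n, MeasurableSet[ℱ n] (S n)) ∧ (∀ n, (∃ q, q.Prime ∧ q ≤ z n ∧ q ∣ n) → S n = ∅) ∧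
  ∀ᵐ ω ∂μ, Tendsto (fun n : ℕ =>
    (μ[(S (n + 1)).indicator (fun _ => (1 : ℝ)) | ℱ n]) ω * Real.log n / W (z (n + 1)))
    (atTop ⊓ 𝓟 {n : ℕ | ∀ q, q.Prime → q ≤ z (n + 1) → ¬ q ∣ n + 1}) (𝓝 1)

/-- (1) `E(n) ≥ n ^ (1/2 - ε)` for all large `n` with the property `G`; (2) almost surely `R(n) / E(n)` tends to
`1` as `n → ∞`, `n` with the property `G`; (3) almost surely `R(n) ≥ n ^ (1/2 - ε)` for all large `n` with the
property `G` -/
def Law {Ω : Type} {mΩ : MeasurableSpace Ω} (μ : Measure Ω) (S : ℕ → Set Ω) (z : ℕ → ℕ) (ε : ℝ)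
    (G : ℕ → Prop) : Prop :=
  (∀ᶠ n : ℕ in atTop, G n → (n : ℝ) ^ (1 / 2 - ε) ≤ E z n) ∧
  (∀ᵐ ω ∂μ, Tendsto (fun n : ℕ => (R {k | ω ∈ S k} n : ℝ) / E z n) (atTop ⊓ 𝓟 {n : ℕ | G n}) (𝓝 1)) ∧
  (∀ᵐ ω ∂μ, ∀ᶠ n : ℕ in atTop, G n → (n : ℝ) ^ (1 / 2 - ε) ≤ R {k | ω ∈ S k} n)

open Pool.Agent.R494.SPL

lemma four_eq (n : ℕ) : four n = ((quad3 n : Finset (ℕ × ℕ × ℕ × ℕ)) : Set (ℕ × ℕ × ℕ × ℕ)) := by
  ext v
  rw [Finset.mem_coe, mem_quad3]
  rfl

lemma E_eq (z : ℕ → ℕ) (n : ℕ) : E z n = ∑ v ∈ quad3 n, Pool.Agent.N233.GM.rho z (val3 v) := by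
  unfold E
  rw [four_eq, finsum_mem_coe_finset]
  rfl

lemma R_eq {Ω : Type} {A : ℕ → Set Ω} (ω : Ω) (n : ℕ) :
    (R {k : ℕ | ω ∈ A k} n : ℝ) = ∑ v ∈ quad3 n, Pool.Agent.R528.RM.In A (val3 v) ω := by
  classical
  have h0 : {v | v ∈ four n ∧ form v ∈ {k : ℕ | ω ∈ A k}} =
      (((quad3 n).filter (fun v => ω ∈ A (val3 v)) : Finset (ℕ × ℕ × ℕ × ℕ)) : Set (ℕ × ℕ × ℕ × ℕ)) := by
    ext v
    rw [Set.mem_ofPred_eq, four_eq, Finset.mem_coe, Finset.mem_coe, Finset.mem_filter]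
    rfl
  unfold R
  rw [h0, Set.ncard_coe_finset, Finset.card_filter]
  push_cast
  refine Finset.sum_congr rfl fun v _ => ?_
  unfold Pool.Agent.R528.RM.In
  by_cases h : ω ∈ A (val3 v)
  · simp [h]
  · simp [h]

/-- the cut off densities change the expected number only by a bounded amount -/
lemma cut (z : ℕ → ℕ) (hV : ∀ᶠ n : ℕ in atTop, Pool.Agent.N233.GM.W (z n) / Real.log n < 1) :
    ∃ C : ℝ, 0 ≤ C ∧ ∀ n : ℕ, |E z n - ∑ v ∈ quad3 n, Pool.Agent.N233.GM.rho1 z (val3 v)| ≤ C := by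
  classical
  obtain ⟨m0, hm0⟩ := eventually_atTop.1 hV
  set g : ℕ → ℝ := fun m => |Pool.Agent.N233.GM.rho z m - Pool.Agent.N233.GM.rho1 z m| with hg
  have hg0 : ∀ m, 0 ≤ g m := fun m => abs_nonneg _
  have hgz : ∀ m, m0 ≤ m → g m = 0 := by
    intro m hm
    rw [hg]
    simp only
    rw [Pool.Agent.N233.GM.rho1_eq z m (hm0 m hm), sub_self, abs_zero]
  refine ⟨12 * ∑ m ∈ Finset.range m0, g m, by
    have := Finset.sum_nonneg (s := Finset.range m0) fun m _ => hg0 m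
    positivity, fun n => ?_⟩
  rw [E_eq, ← Finset.sum_sub_distrib]
  refine (Finset.abs_sum_le_sum_abs _ _).trans ?_
  have h1 : ∑ v ∈ quad3 n, g (val3 v) = ∑ v ∈ (quad3 n).filter (fun v => val3 v < m0), g (val3 v) := by
    rw [← Finset.sum_filter_add_sum_filter_not (quad3 n) (fun v => val3 v < m0)]
    have : ∑ v ∈ (quad3 n).filter (fun v => ¬ val3 v < m0), g (val3 v) = 0 :=
      Finset.sum_eq_zero fun v hv => hgz _ (not_lt.1 (Finset.mem_filter.1 hv).2)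
    rw [this, add_zero]
  have h2 : ∑ v ∈ (quad3 n).filter (fun v => val3 v < m0), g (val3 v) =
      ∑ m ∈ Finset.range m0, ∑ v ∈ ((quad3 n).filter (fun v => val3 v < m0)).filter (fun v => val3 v = m),
        g (val3 v) :=
    (Finset.sum_fiberwise_of_maps_to (fun v hv => Finset.mem_range.2 (Finset.mem_filter.1 hv).2) _).symm
  show ∑ v ∈ quad3 n, g (val3 v) ≤ _
  rw [h1, h2, Finset.mul_sum]
  refine Finset.sum_le_sum fun m _ => ?_
  have h3 : ∀ v ∈ ((quad3 n).filter (fun v => val3 v < m0)).filter (fun v => val3 v = m), g (val3 v) = g m :=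
    fun v hv => by rw [(Finset.mem_filter.1 hv).2]
  rw [Finset.sum_congr rfl h3, Finset.sum_const, nsmul_eq_mul]
  have h4 : (((quad3 n).filter (fun v => val3 v < m0)).filter (fun v => val3 v = m)).card ≤ 12 :=
    (Finset.card_le_card (Finset.filter_subset_filter _ (Finset.filter_subset _ _))).trans (fibre3 n m)
  have h5 : ((((quad3 n).filter (fun v => val3 v < m0)).filter (fun v => val3 v = m)).card : ℝ) ≤ 12 := by
    exact_mod_cast h4
  exact mul_le_mul_of_nonneg_right h5 (hg0 m)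

lemma core {Ω : Type} {mΩ : MeasurableSpace Ω} (μ : Measure Ω) [IsProbabilityMeasure μ]
    (ℱ : Filtration ℕ mΩ) (S : ℕ → Set Ω) (z : ℕ → ℕ) (hm : Model μ ℱ S z) (c ε : ℝ) (hε : ε ≤ 1 / 4)
    (hz : ∀ᶠ m : ℕ in atTop, (z m : ℝ) ≤ c * Real.log (Real.log m) ^ 2) (G : ℕ → Prop)
    (hE1 : ∀ᶠ n : ℕ in atTop, G n → 2 * (n : ℝ) ^ (1 / 2 - ε) ≤
      ∑ v ∈ quad3 n, Pool.Agent.N233.GM.rho1 z (val3 v)) : Law μ S z ε G := by
  classical
  obtain ⟨hS, hsieve, hd⟩ := hm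
  have hV := Pool.Agent.N233.GM.short _ z hz
  have hcop : ∀ n, ¬ Pool.Agent.N233.GM.Rough z n → S n = ∅ := by
    intro n hn
    unfold Pool.Agent.N233.GM.Rough at hn
    push Not at hn
    exact hsieve n hn
  have hE2 : ∀ᶠ n : ℕ in atTop, G n → 2 * (n : ℝ) ^ (1 / 2 - 1 / 4 : ℝ) ≤
      ∑ v ∈ quad3 n, Pool.Agent.N233.GM.rho1 z (val3 v) := by
    filter_upwards [hE1, eventually_ge_atTop 1] with n h1 h2 h3
    refine le_trans ?_ (h1 h3)
    have : (n : ℝ) ^ (1 / 2 - 1 / 4 : ℝ) ≤ (n : ℝ) ^ (1 / 2 - ε) :=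
      Real.rpow_le_rpow_of_exponent_le (by exact_mod_cast h2) (by linarith)
    linarith
  have hprof := Pool.Agent.N233.GM.profile (μ := μ) (ℱ := ℱ) (A := S) z hV hcop hd
  have hlaw := Pool.Agent.U949.GS.law3g (μ := μ) (ℱ := ℱ) (A := S) hS z hprof G hE2
  obtain ⟨C, hC0, hC⟩ := cut z hV
  have hquart : Tendsto (fun n : ℕ => (n : ℝ) ^ (1 / 2 - 1 / 4 : ℝ)) atTop atTop :=
    (tendsto_rpow_atTop (by norm_num)).comp tendsto_natCast_atTop_atTop
  have hElow : ∀ᶠ n : ℕ in atTop, G n → (n : ℝ) ^ (1 / 2 - ε) ≤ E z n := by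
    filter_upwards [hE1, eventually_ge_atTop 1, hquart.eventually_ge_atTop C] with n h1 h2 h4 h3
    have h5 := h1 h3
    have h6 : (n : ℝ) ^ (1 / 2 - 1 / 4 : ℝ) ≤ (n : ℝ) ^ (1 / 2 - ε) :=
      Real.rpow_le_rpow_of_exponent_le (by exact_mod_cast h2) (by linarith)
    have h7 := (abs_le.1 (hC n)).1
    linarith
  refine ⟨hElow, ?_, ?_⟩
  · filter_upwards [hlaw] with ω hω
    rw [Metric.tendsto_nhds]
    intro η hη
    rw [eventually_inf_principal]
    filter_upwards [hω (η / 8) (by positivity), hω (1 / 2) (by norm_num), hE2,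
      hquart.eventually_ge_atTop (4 * C / η + C), eventually_ge_atTop 1] with n h1 h1' h2 h3 h4 hn
    have hn' : G n := hn
    have k1 := h1 hn'
    have k2 := h2 hn'
    have k0 : 0 ≤ 4 * C / η := by positivity
    obtain ⟨c1, c2⟩ := abs_le.1 (hC n)
    set Q := ∑ v ∈ quad3 n, Pool.Agent.N233.GM.rho1 z (val3 v) with hQ
    have k3 : 0 < (n : ℝ) ^ (1 / 2 - 1 / 4 : ℝ) := Real.rpow_pos_of_pos (by exact_mod_cast h4) _
    have k5 : C ≤ (n : ℝ) ^ (1 / 2 - 1 / 4 : ℝ) := by linarith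
    have k6 : Q / 2 ≤ E z n := by linarith
    have hE0 : 0 < E z n := by linarith
    have k7 : C ≤ η / 4 * (n : ℝ) ^ (1 / 2 - 1 / 4 : ℝ) := by
      have : 4 * C / η ≤ (n : ℝ) ^ (1 / 2 - 1 / 4 : ℝ) := by linarith
      rw [div_le_iff₀ hη] at this
      linarith
    rw [R_eq ω n]
    rw [Real.dist_eq, show (∑ v ∈ quad3 n, Pool.Agent.R528.RM.In S (val3 v) ω) / E z n - 1 =
      ((∑ v ∈ quad3 n, Pool.Agent.R528.RM.In S (val3 v) ω) - E z n) / E z n by
      field_simp, abs_div, abs_of_pos hE0, div_lt_iff₀ hE0]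
    have k8 : |(∑ v ∈ quad3 n, Pool.Agent.R528.RM.In S (val3 v) ω) - E z n| ≤ η / 8 * Q + C := by
      calc |(∑ v ∈ quad3 n, Pool.Agent.R528.RM.In S (val3 v) ω) - E z n|
          = |((∑ v ∈ quad3 n, Pool.Agent.R528.RM.In S (val3 v) ω) - Q) - (E z n - Q)| := by ring_nf
        _ ≤ |(∑ v ∈ quad3 n, Pool.Agent.R528.RM.In S (val3 v) ω) - Q| + |E z n - Q| := abs_sub _ _
        _ ≤ _ := add_le_add k1 (hC n)
    have k9 : η * (Q / 2) ≤ η * E z n := mul_le_mul_of_nonneg_left k6 hη.le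
    have k10 : η / 4 * (n : ℝ) ^ (1 / 2 - 1 / 4 : ℝ) ≤ η / 8 * Q := by nlinarith
    have k11 : 0 < η * Q := by
      apply mul_pos hη
      linarith
    linarith
  · filter_upwards [hlaw] with ω hω
    filter_upwards [hω (1 / 2) (by norm_num), hE1] with n h1 h2 hn
    have k1 := (abs_le.1 (h1 hn)).1
    have k2 := h2 hn
    rw [R_eq ω n]
    linarith

lemma Law.mono {Ω : Type} {mΩ : MeasurableSpace Ω} {μ : Measure Ω} {S : ℕ → Set Ω} {z : ℕ → ℕ} {ε' ε : ℝ}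
    {G : ℕ → Prop} (h : ε' ≤ ε) (hL : Law μ S z ε' G) : Law μ S z ε G := by
  obtain ⟨h1, h2, h3⟩ := hL
  refine ⟨?_, h2, ?_⟩
  · filter_upwards [h1, eventually_ge_atTop 1] with n g1 g2 g3
    exact le_trans (Real.rpow_le_rpow_of_exponent_le (by exact_mod_cast g2) (by linarith)) (g1 g3)
  · filter_upwards [h3] with ω hω
    filter_upwards [hω, eventually_ge_atTop 1] with n g1 g2 g3
    exact le_trans (Real.rpow_le_rpow_of_exponent_le (by exact_mod_cast g2) (by linarith)) (g1 g3)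

lemma clear_iff {z : ℕ → ℕ} {n : ℕ} (h : Clear z n) : Pool.Agent.U949.GS.Clear2 z n := by
  intro v hv q hq hq2 hqz hexc
  exact h.2 v (by rw [four_eq]; exact hv) q hqz ⟨hq, hq2, hexc⟩

/-- **All large odd numbers without exceptional primes, in models with a growing sieve.**  For every `ε > 0`
there is `c > 0` such that the following holds for all random models of the primes with a sieve `z`
(`Model`: the event `S n` that `n` is chosen is adapted to a filtration, no `n` with a prime factor at most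
`z n` is chosen, and the conditional probability of `S (n + 1)` given the past, times
`log n / ∏_{q ≤ z(n + 1)} (1 - 1/q)⁻¹`, tends to `1` along the `n` for which `n + 1` has no prime factor at most
`z (n + 1)`, almost surely).
(1) If `z m ≤ c t log t / log log t`, `t = log log m`, for all large `m`, then the `Law` holds for all large odd
`n` without exceptional primes in the range of the sieve, and all large `Good` numbers are such.
(2) The same, if `z m ≤ c (log log m) ^ 2` for all large `m`, for those `n` which are not divisible by the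
square of a prime between `c log n` and `(log n) ^ 2`.
(3) If `z m ≤ 40` for all `m`, no odd `n` has exceptional primes in the range of the sieve; if `z m ≤ 100`, no
odd `n` with `n ≢ 11 mod 20`. -/
theorem result (ε : ℝ) (hε : 0 < ε) : ∃ c : ℝ, 0 < c ∧
    ∀ {Ω : Type} [mΩ : MeasurableSpace Ω] (μ : Measure Ω) [IsProbabilityMeasure μ]
    (ℱ : Filtration ℕ mΩ) (S : ℕ → Set Ω) (z : ℕ → ℕ) (_ : Model μ ℱ S z),
    ((∀ᶠ m : ℕ in atTop, (z m : ℝ) ≤ c * (Real.log (Real.log m) * Real.log (Real.log (Real.log m)) /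
        Real.log (Real.log (Real.log (Real.log m))))) →
      Law μ S z ε (Clear z) ∧ ∀ᶠ n : ℕ in atTop, Good n → Clear z n) ∧
    ((∀ᶠ m : ℕ in atTop, (z m : ℝ) ≤ c * Real.log (Real.log m) ^ 2) →
      Law μ S z ε (fun n => Clear z n ∧ NoSquares c n) ∧ ∀ᶠ n : ℕ in atTop, Good n → Clear z n) ∧
    ((∀ m, z m ≤ 40) → ∀ n, Odd n → Clear z n) ∧
    ((∀ m, z m ≤ 100) → ∀ n, Odd n → n % 20 ≠ 11 → Clear z n) := by
  classical
  set δ : ℝ := min ε (1 / 4) with hδ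
  have hδ0 : 0 < δ := lt_min hε (by norm_num)
  have hδ1 : δ ≤ 1 / 4 := min_le_right _ _
  have hδε : δ ≤ ε := min_le_left _ _
  obtain ⟨n1, hlow⟩ := Pool.Agent.U949.GS.low_E3 δ hδ0 (by linarith)
  obtain ⟨cA, hcA, nA, hA⟩ := Pool.Agent.U949.GS.setsA (δ / 2) (by positivity)
  obtain ⟨cB, hcB, nB, hB⟩ := Pool.Agent.U949.GS.setsB (δ / 2) (by positivity)
  refine ⟨min 1 (min cA cB), by positivity, ?_⟩
  intro Ω mΩ μ hμ ℱ S z hm
  set c := min 1 (min cA cB) with hc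
  have hc0 : 0 < c := by positivity
  have hc1 : c ≤ 1 := min_le_left _ _
  have hcA' : c ≤ cA := (min_le_right _ _).trans (min_le_left _ _)
  have hcB' : c ≤ cB := (min_le_right _ _).trans (min_le_right _ _)
  have hgood : (∀ᶠ m : ℕ in atTop, (z m : ℝ) ≤ c * Real.log (Real.log m) ^ 2) →
      ∀ᶠ n : ℕ in atTop, Good n → Clear z n := by
    intro hz
    have hz' : ∀ᶠ m : ℕ in atTop, (z m : ℝ) ≤ Real.log (Real.log m) ^ 2 := by
      filter_upwards [hz] with m h1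
      refine h1.trans ?_
      have := sq_nonneg (Real.log (Real.log (m : ℝ)))
      nlinarith
    filter_upwards [Pool.Agent.U949.GS.good_clear z hz'] with n h1 h2
    refine ⟨h2.1, fun v hv q hqz hexc => ?_⟩
    rw [four_eq] at hv
    exact h1 ⟨h2.2.1, h2.2.2⟩ v hv q hexc.1 hqz hexc.2.1 hexc.2.2
  refine ⟨fun hz => ?_, fun hz => ?_, fun hz n hn => ?_, fun hz n hn hn20 => ?_⟩
  · have hzL : ∀ᶠ m : ℕ in atTop, (z m : ℝ) ≤ c * Pool.Agent.U949.GS.L (Real.log (Real.log m)) := hz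
    have hsq := Pool.Agent.U949.GS.L_to_sq c hc0 z hzL
    refine ⟨Law.mono hδε (core μ ℱ S z hm c δ hδ1 hsq _ ?_), hgood hsq⟩
    filter_upwards [eventually_ge_atTop n1, eventually_ge_atTop nA,
      Pool.Agent.U949.GS.range_L c hc0 z hzL,
      (Real.tendsto_log_atTop.comp tendsto_natCast_atTop_atTop).eventually Pool.Agent.U949.GS.L_le_sq]
      with n h1 h2 h3 h4 hG
    refine hlow n h1 _ ?_ z (clear_iff hG) h3
    obtain ⟨T, t1, t2, t3⟩ := hA n h2 hG.1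
    refine ⟨T, t1, t2, fun v hv q hq hqd hqy => t3 v hv q hq hqd (hqy.trans ?_)⟩
    have h5 : 0 ≤ Pool.Agent.U949.GS.L (Real.log n) := h4.2
    exact mul_le_mul_of_nonneg_right hcA' h5
  · refine ⟨Law.mono hδε (core μ ℱ S z hm c δ hδ1 hz _ ?_), hgood hz⟩
    filter_upwards [eventually_ge_atTop n1, eventually_ge_atTop nB,
      Pool.Agent.U949.GS.range_sq c hc0 z hz, eventually_ge_atTop 1]
      with n h1 h2 h3 h4 hG
    refine hlow n h1 _ ?_ z (clear_iff hG.1) h3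
    have hln : 0 ≤ Real.log (n : ℝ) := Real.log_nonneg (by exact_mod_cast h4)
    obtain ⟨T, t1, t2, t3⟩ := hB n h2 hG.1.1 (fun l hl hl1 hl2 => hG.2 l hl (lt_of_le_of_lt
      (mul_le_mul_of_nonneg_right hcB' hln) hl1) hl2)
    refine ⟨T, t1, t2, fun v hv q hq hqd hqy => t3 v hv q hq hqd (hqy.trans ?_)⟩
    exact mul_le_mul_of_nonneg_right hcB' (sq_nonneg _)
  · refine ⟨hn, fun v hv q hqz hexc => ?_⟩
    have h1 := hqz.trans (hz _)
    have h2 := Pool.Agent.U949.GS.exc_small hexc.1 hexc.2.1 hexc.2.2 (by omega)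
    omega
  · refine ⟨hn, fun v hv q hqz hexc => ?_⟩
    have h1 := hqz.trans (hz _)
    have h2 := Pool.Agent.U949.GS.exc_small hexc.1 hexc.2.1 hexc.2.2 h1
    exact hn20 h2.2

end Pool.Agent.Results.MP_f6c7cf_nt.GrowingSieveModels
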