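import Mathlib
import Pool.Agent.U949.CL.Rho
import Pool.Agent.U949.CL.Fluct2
import Pool.Agent.U949.GS.Range
import Pool.Agent.U949.CL.Freq

set_option autoImplicit false

/-!
# The distribution of the number of quadruples in one realisation of a random model of the primes

The question is whether every odd `n > 1` is a sum `x² + y² + z² + 4w²` such that `2 ^ x + 2 ^ y + 2 ^ z + 1` is
prime.  In Cramér's model of the primes with a growing sieve we determine how the number of quadruples, centred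
at its mean `E(n)` and divided by its standard deviation `√V(n)`, is distributed for ONE realisation as `n`
varies: it is normally distributed along every separated sequence of odd `n`, and (for a sieve up to `40`) dense
in the real line over all odd `n`.
-/

open MeasureTheory ProbabilityTheory Filter
open scoped Topology

namespace Pool.Agent.Results.MP_f6c7cf_nt.NormalFrequencies

/-- the quadruples of natural numbers with `n = x² + y² + z² + 4w²` -/
def four (n : ℕ) : Set (ℕ × ℕ × ℕ × ℕ) :=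
  {v | n = v.1 ^ 2 + v.2.1 ^ 2 + v.2.2.1 ^ 2 + 4 * v.2.2.2 ^ 2}

/-- the value `2 ^ x + 2 ^ y + 2 ^ z + 1` -/
def form (v : ℕ × ℕ × ℕ × ℕ) : ℕ := 2 ^ v.1 + 2 ^ v.2.1 + 2 ^ v.2.2.1 + 1

/-- the number of quadruples of natural numbers with `n = x² + y² + z² + 4w²` for which
`2 ^ x + 2 ^ y + 2 ^ z + 1` belongs to `S` -/
noncomputable def R (S : Set ℕ) (n : ℕ) : ℕ := {v | v ∈ four n ∧ form v ∈ S}.ncard

/-- `∏_{q ≤ x} (1 - 1/q)⁻¹`, `q` prime -/
noncomputable def W (x : ℕ) : ℝ := ∏ q ∈ (Finset.Icc 1 x).filter Nat.Prime, (1 - (q : ℝ)⁻¹)⁻¹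

open Classical in
/-- the probability that `m` is chosen: `W (z m) / log m` (at most `1`) if `m` has no prime factor at most
`z m`, and `0` otherwise -/
noncomputable def rho (z : ℕ → ℕ) (m : ℕ) : ℝ :=
  if ∀ q, q.Prime → q ≤ z m → ¬ q ∣ m then min 1 (W (z m) / Real.log m) else 0

/-- the expected number of quadruples: the sum of `rho (2 ^ x + 2 ^ y + 2 ^ z + 1)` over all quadruples
with `n = x² + y² + z² + 4w²` -/
noncomputable def E (z : ℕ → ℕ) (n : ℕ) : ℝ := ∑ᶠ v ∈ four n, rho z (form v)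

/-- the number of quadruples of `n` with the value `m` -/
noncomputable def mult (n m : ℕ) : ℕ := {v | v ∈ four n ∧ form v = m}.ncard

/-- the variance of the number of quadruples: the sum of `mult(n, m)² rho(m) (1 - rho(m))` over all values
`m` of quadruples of `n` -/
noncomputable def V (z : ℕ → ℕ) (n : ℕ) : ℝ :=
  ∑ᶠ m ∈ form '' four n, (mult n m : ℝ) ^ 2 * (rho z m * (1 - rho z m))

/-- the exceptional primes `q` of `n`: `l²` divides the order of `2` modulo `q` for a prime `l ≥ 5` with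
`l ≡ 3 mod 4`, `l ∣ 9n - 8` (if `n ≡ 1 mod 4`) or `l ≡ 2 mod 3`, `l ∣ 3n - 8` (if `n ≡ 3 mod 4`), or `q = 113`
(`n ≡ 1 mod 4`, `n ≡ 4 mod 7`) or `q = 41` (`n ≡ 3 mod 4`, `n ≡ 1 mod 5`) -/
def Exceptional (n q : ℕ) : Prop := q.Prime ∧ q ≠ 2 ∧
  ((∃ l : ℕ, l.Prime ∧ 5 ≤ l ∧ l ^ 2 ∣ orderOf (2 : ZMod q) ∧
    ((n % 4 = 1 ∧ l % 4 = 3 ∧ (l : ℤ) ∣ 9 * n - 8) ∨ (n % 4 = 3 ∧ l % 3 = 2 ∧ (l : ℤ) ∣ 3 * n - 8))) ∨
  ((n % 4 = 1 ∧ n % 7 = 4 ∧ q = 113) ∨ (n % 4 = 3 ∧ n % 5 = 1 ∧ q = 41)))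

/-- `n` is odd and has no exceptional prime in the range of the sieve, that is, at most
`z (2 ^ x + 2 ^ y + 2 ^ z + 1)` for some quadruple of `n` -/
def Clear (z : ℕ → ℕ) (n : ℕ) : Prop :=
  Odd n ∧ ∀ v ∈ four n, ∀ q : ℕ, q ≤ z (form v) → ¬ Exceptional n q

/-- `n` is not divisible by the square of a prime between `c log n` and `(log n)²` -/
def NoSquares (c : ℝ) (n : ℕ) : Prop :=
  ∀ l : ℕ, l.Prime → c * Real.log n < l → (l : ℝ) ≤ Real.log n ^ 2 → ¬ l ^ 2 ∣ n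

/-- `n` is odd and no prime `l ≤ log n` with `l ≡ 3 mod 4` divides `9n - 8` (if `n ≡ 1 mod 4`), no prime `l`,
`5 ≤ l ≤ log n`, with `l ≡ 2 mod 3` divides `3n - 8` (if `n ≡ 3 mod 4`) -/
def Good (n : ℕ) : Prop := Odd n ∧
  (n % 4 = 1 → ∀ l : ℕ, l.Prime → l % 4 = 3 → (l : ℝ) ≤ Real.log n → ¬ (l : ℤ) ∣ 9 * n - 8) ∧
  (n % 4 = 3 → ∀ l : ℕ, l.Prime → 5 ≤ l → l % 3 = 2 → (l : ℝ) ≤ Real.log n → ¬ (l : ℤ) ∣ 3 * n - 8)

/-- (1) `E(n) ≥ n ^ (1/2 - ε)` and `E(n) / 4 ≤ V(n) ≤ 12 E(n)` for all large `n` with the property `G`;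
(2) for every real `x` the probability of `R(n) - E(n) ≤ x √V(n)` tends to `Φ(x)` as `n → ∞`, `n` with the
property `G`, where `Φ` is the distribution function of the standard normal law; (3) almost surely
`|R(n) - E(n)| ≤ 3 √(V(n) log n)` for all large `n` with the property `G` -/
def Law {Ω : Type} {mΩ : MeasurableSpace Ω} (μ : Measure Ω) (S : ℕ → Set Ω) (z : ℕ → ℕ) (ε : ℝ)
    (G : ℕ → Prop) : Prop :=
  (∀ᶠ n : ℕ in atTop, G n → (n : ℝ) ^ (1 / 2 - ε) ≤ E z n ∧ E z n / 4 ≤ V z n ∧ V z n ≤ 12 * E z n) ∧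
  (∀ x : ℝ, Tendsto (fun n : ℕ => μ.real {ω | (R {k | ω ∈ S k} n : ℝ) - E z n ≤ x * √(V z n)})
    (atTop ⊓ 𝓟 {n : ℕ | G n}) (𝓝 ((gaussianReal 0 1).real (Set.Iic x)))) ∧
  (∀ᵐ ω ∂μ, ∀ᶠ n : ℕ in atTop, G n →
    |(R {k | ω ∈ S k} n : ℝ) - E z n| ≤ 3 * √(V z n * Real.log n))

/-- the number of `k < K` with `R(n k) - E(n k) ≤ x √V(n k)` for the set `A` -/
noncomputable def below (z : ℕ → ℕ) (A : Set ℕ) (n : ℕ → ℕ) (x : ℝ) (K : ℕ) : ℕ :=
  {k | k < K ∧ (R A (n k) : ℝ) - E z (n k) ≤ x * √(V z (n k))}.ncard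

/-- for `k < l` all the numbers `n l - 4w² ≥ 0` are larger than `12 n k` -/
def Separated (n : ℕ → ℕ) : Prop := ∀ k l, k < l → ∀ w : ℕ, 4 * w ^ 2 ≤ n l → 12 * n k + 4 * w ^ 2 < n l

/-- for every separated sequence of numbers `n k` with the property `G` and every real `x`, almost surely the
proportion of the `k < K` with `R(n k) - E(n k) ≤ x √V(n k)` tends to `Φ(x)` as `K → ∞` -/
def Freq {Ω : Type} {mΩ : MeasurableSpace Ω} (μ : Measure Ω) (S : ℕ → Set Ω) (z : ℕ → ℕ)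
    (G : ℕ → Prop) : Prop :=
  ∀ n : ℕ → ℕ, (∀ k, G (n k)) → Separated n → ∀ x : ℝ,
    ∀ᵐ ω ∂μ, Tendsto (fun K : ℕ => (below z {m | ω ∈ S m} n x K : ℝ) / K) atTop
      (𝓝 ((gaussianReal 0 1).real (Set.Iic x)))

open Pool.Agent.R494.SPL Pool.Agent.U949.CL

lemma four_eq (n : ℕ) : four n = ((quad3 n : Finset (ℕ × ℕ × ℕ × ℕ)) : Set (ℕ × ℕ × ℕ × ℕ)) := by
  ext v
  rw [Finset.mem_coe, mem_quad3]
  rfl

lemma E_eq (z : ℕ → ℕ) (n : ℕ) : E z n = Ex (Pool.Agent.N233.GM.rho1 z) (quad3 n) val3 := by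
  unfold E
  rw [four_eq, finsum_mem_coe_finset]
  rfl

lemma mult_eq (n m : ℕ) : mult n m = Pool.Agent.U949.CL.mult (quad3 n) val3 m := by
  classical
  have h0 : {v | v ∈ four n ∧ form v = m} =
      (((quad3 n).filter (fun v => val3 v = m) : Finset (ℕ × ℕ × ℕ × ℕ)) : Set (ℕ × ℕ × ℕ × ℕ)) := by
    ext v
    rw [Set.mem_ofPred_eq, four_eq, Finset.mem_coe, Finset.mem_coe, Finset.mem_filter]
    rfl
  unfold mult Pool.Agent.U949.CL.mult
  rw [h0, Set.ncard_coe_finset]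

lemma V_eq (z : ℕ → ℕ) (n : ℕ) : V z n = Va (Pool.Agent.N233.GM.rho1 z) (quad3 n) val3 := by
  classical
  unfold V
  have : form '' four n = (((quad3 n).image val3 : Finset ℕ) : Set ℕ) := by
    rw [four_eq, Finset.coe_image]
    rfl
  rw [this, finsum_mem_coe_finset]
  unfold Va
  refine Finset.sum_congr rfl fun m _ => ?_
  rw [mult_eq]
  rfl

lemma R_eq {Ω : Type} {A : ℕ → Set Ω} (ω : Ω) (n : ℕ) :
    (R {k : ℕ | ω ∈ A k} n : ℝ) = Co A (quad3 n) val3 ω := by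
  classical
  have h0 : {v | v ∈ four n ∧ form v ∈ {k : ℕ | ω ∈ A k}} =
      (((quad3 n).filter (fun v => ω ∈ A (val3 v)) : Finset (ℕ × ℕ × ℕ × ℕ)) : Set (ℕ × ℕ × ℕ × ℕ)) := by
    ext v
    rw [Set.mem_ofPred_eq, four_eq, Finset.mem_coe, Finset.mem_coe, Finset.mem_filter]
    rfl
  unfold R Co
  rw [h0, Set.ncard_coe_finset, Finset.card_filter]
  push_cast
  refine Finset.sum_congr rfl fun v _ => ?_
  unfold I1
  by_cases h : ω ∈ A (val3 v)
  · simp [h]
  · simp [h]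

lemma clear_iff {z : ℕ → ℕ} {n : ℕ} (h : Clear z n) : Pool.Agent.U949.GS.Clear2 z n := by
  intro v hv q hq hq2 hqz hexc
  exact h.2 v (by rw [four_eq]; exact hv) q hqz ⟨hq, hq2, hexc⟩

lemma core {Ω : Type} [MeasurableSpace Ω] (μ : Measure Ω) [IsProbabilityMeasure μ]
    (S : ℕ → Set Ω) (hS : ∀ m, MeasurableSet (S m)) (hind : iIndepSet S μ) (z : ℕ → ℕ) (c : ℝ)
    (hz : ∀ᶠ m : ℕ in atTop, (z m : ℝ) ≤ c * Real.log (Real.log m) ^ 2)
    (hp : ∀ m, μ.real (S m) = rho z m) (δ ε : ℝ) (hδ1 : δ ≤ 1 / 16) (hδε : δ ≤ ε) (G : ℕ → Prop)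
    (hE : ∀ᶠ n : ℕ in atTop, G n → 2 * (n : ℝ) ^ (1 / 2 - δ) ≤
      ∑ v ∈ quad3 n, Pool.Agent.N233.GM.rho1 z (val3 v)) : Law μ S z ε G := by
  classical
  have hE1 : ∀ᶠ n : ℕ in atTop, G n → (n : ℝ) ^ (1 / 2 - ε) ≤ E z n ∧
      (n : ℝ) ^ (7 / 16 : ℝ) ≤ E z n := by
    filter_upwards [hE, eventually_ge_atTop 1] with n h1 h2 hn
    have h3 := h1 hn
    have hn1 : (1 : ℝ) ≤ n := by exact_mod_cast h2
    have h4 : (0 : ℝ) < (n : ℝ) ^ (1 / 2 - δ) := Real.rpow_pos_of_pos (by linarith) _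
    have h5 : (n : ℝ) ^ (1 / 2 - ε) ≤ (n : ℝ) ^ (1 / 2 - δ) :=
      Real.rpow_le_rpow_of_exponent_le hn1 (by linarith)
    have h6 : (n : ℝ) ^ (7 / 16 : ℝ) ≤ (n : ℝ) ^ (1 / 2 - δ) :=
      Real.rpow_le_rpow_of_exponent_le hn1 (by linarith)
    have h7 : E z n = ∑ v ∈ quad3 n, Pool.Agent.N233.GM.rho1 z (val3 v) := by
      rw [E_eq]
      rfl
    rw [h7]
    constructor <;> linarith
  obtain ⟨r1, r2, r3⟩ := fluct12 S hS hind (Pool.Agent.N233.GM.rho1 z) (fun m => hp m) (rho1_half c z hz)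
    quad3 val3 G (fun n m => by exact_mod_cast fibre3 n m)
    (by
      filter_upwards [hE1] with n h1 hn
      rw [← E_eq]
      exact (h1 hn).2)
  refine ⟨?_, fun x => ?_, ?_⟩
  · filter_upwards [hE1, r1] with n h1 h2 hn
    rw [← E_eq, ← V_eq] at h2
    exact ⟨(h1 hn).1, (h2 hn).1, (h2 hn).2⟩
  · refine (r2 x).congr fun n => ?_
    simp only [R_eq, E_eq, V_eq]
  · filter_upwards [r3] with ω hω
    simp only [R_eq, E_eq, V_eq]
    exact hω

theorem gauss (ε : ℝ) (hε : 0 < ε) : ∃ c : ℝ, 0 < c ∧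
    ∀ {Ω : Type} [MeasurableSpace Ω] (μ : Measure Ω) [IsProbabilityMeasure μ]
    (S : ℕ → Set Ω) (_ : ∀ m, MeasurableSet (S m)) (_ : iIndepSet S μ) (z : ℕ → ℕ)
    (_ : ∀ m, μ.real (S m) = rho z m),
    ((∀ᶠ m : ℕ in atTop, (z m : ℝ) ≤ c * (Real.log (Real.log m) * Real.log (Real.log (Real.log m)) /
        Real.log (Real.log (Real.log (Real.log m))))) →
      Law μ S z ε (Clear z) ∧ ∀ᶠ n : ℕ in atTop, Good n → Clear z n) ∧
    ((∀ᶠ m : ℕ in atTop, (z m : ℝ) ≤ c * Real.log (Real.log m) ^ 2) →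
      Law μ S z ε (fun n => Clear z n ∧ NoSquares c n) ∧ ∀ᶠ n : ℕ in atTop, Good n → Clear z n) ∧
    ((∀ m, z m ≤ 40) → ∀ n, Odd n → Clear z n) ∧
    ((∀ m, z m ≤ 100) → ∀ n, Odd n → n % 20 ≠ 11 → Clear z n) := by
  classical
  set δ : ℝ := min ε (1 / 16) with hδ
  have hδ0 : 0 < δ := lt_min hε (by norm_num)
  have hδ1 : δ ≤ 1 / 16 := min_le_right _ _
  have hδε : δ ≤ ε := min_le_left _ _
  obtain ⟨n1, hlow⟩ := Pool.Agent.U949.GS.low_E3 δ hδ0 (by linarith)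
  obtain ⟨cA, hcA, nA, hA⟩ := Pool.Agent.U949.GS.setsA (δ / 2) (by positivity)
  obtain ⟨cB, hcB, nB, hB⟩ := Pool.Agent.U949.GS.setsB (δ / 2) (by positivity)
  refine ⟨min 1 (min cA cB), by positivity, ?_⟩
  intro Ω _ μ _ S hS hind z hp
  set c := min 1 (min cA cB) with hc
  have hc0 : 0 < c := by positivity
  have hc1 : c ≤ 1 := min_le_left _ _
  have hcA' : c ≤ cA := (min_le_right _ _).trans (min_le_left _ _)
  have hcB' : c ≤ cB := (min_le_right _ _).trans (min_le_right _ _)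
  have hgood : (∀ᶠ m : ℕ in atTop, (z m : ℝ) ≤ c * Real.log (Real.log m) ^ 2) →
      ∀ᶠ n : ℕ in atTop, Good n → Clear z n := by
    intro hz
    have hz' : ∀ᶠ m : ℕ in atTop, (z m : ℝ) ≤ Real.log (Real.log m) ^ 2 := by
      filter_upwards [hz] with m h1
      refine h1.trans ?_
      have := sq_nonneg (Real.log (Real.log (m : ℝ)))
      nlinarith
    filter_upwards [Pool.Agent.U949.GS.good_clear z hz'] with n h1 h2
    refine ⟨h2.1, fun v hv q hqz hexc => ?_⟩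
    rw [four_eq] at hv
    exact h1 ⟨h2.2.1, h2.2.2⟩ v hv q hexc.1 hqz hexc.2.1 hexc.2.2
  refine ⟨fun hz => ?_, fun hz => ?_, fun hz n hn => ?_, fun hz n hn hn20 => ?_⟩
  · have hzL : ∀ᶠ m : ℕ in atTop, (z m : ℝ) ≤ c * Pool.Agent.U949.GS.L (Real.log (Real.log m)) := hz
    have hsq := Pool.Agent.U949.GS.L_to_sq c hc0 z hzL
    refine ⟨core μ S hS hind z c hsq hp δ ε hδ1 hδε _ ?_, hgood hsq⟩
    filter_upwards [eventually_ge_atTop n1, eventually_ge_atTop nA,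
      Pool.Agent.U949.GS.range_L c hc0 z hzL,
      (Real.tendsto_log_atTop.comp tendsto_natCast_atTop_atTop).eventually Pool.Agent.U949.GS.L_le_sq]
      with n h1 h2 h3 h4 hG
    refine hlow n h1 _ ?_ z (clear_iff hG) h3
    obtain ⟨T, t1, t2, t3⟩ := hA n h2 hG.1
    refine ⟨T, t1, t2, fun v hv q hq hqd hqy => t3 v hv q hq hqd (hqy.trans ?_)⟩
    have h5 : 0 ≤ Pool.Agent.U949.GS.L (Real.log n) := h4.2
    exact mul_le_mul_of_nonneg_right hcA' h5
  · refine ⟨core μ S hS hind z c hz hp δ ε hδ1 hδε _ ?_, hgood hz⟩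
    filter_upwards [eventually_ge_atTop n1, eventually_ge_atTop nB,
      Pool.Agent.U949.GS.range_sq c hc0 z hz, eventually_ge_atTop 1]
      with n h1 h2 h3 h4 hG
    refine hlow n h1 _ ?_ z (clear_iff hG.1) h3
    have hln : 0 ≤ Real.log (n : ℝ) := Real.log_nonneg (by exact_mod_cast h4)
    obtain ⟨T, t1, t2, t3⟩ := hB n h2 hG.1.1 (fun l hl hl1 hl2 => hG.2 l hl (lt_of_le_of_lt
      (mul_le_mul_of_nonneg_right hcB' hln) hl1) hl2)
    refine ⟨T, t1, t2, fun v hv q hq hqd hqy => t3 v hv q hq hqd (hqy.trans ?_)⟩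
    exact mul_le_mul_of_nonneg_right hcB' (sq_nonneg _)
  · refine ⟨hn, fun v hv q hqz hexc => ?_⟩
    have h1 := hqz.trans (hz _)
    have h2 := Pool.Agent.U949.GS.exc_small hexc.1 hexc.2.1 hexc.2.2 (by omega)
    omega
  · refine ⟨hn, fun v hv q hqz hexc => ?_⟩
    have h1 := hqz.trans (hz _)
    have h2 := Pool.Agent.U949.GS.exc_small hexc.1 hexc.2.1 hexc.2.2 h1
    exact hn20 h2.2

lemma val_disj {n n' : ℕ} (hn : 1 ≤ n) (h : ∀ w : ℕ, 4 * w ^ 2 ≤ n' → 12 * n + 4 * w ^ 2 < n')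
    {v w : ℕ × ℕ × ℕ × ℕ} (hv : v ∈ quad3 n) (hw : w ∈ quad3 n') : val3 v ≠ val3 w := by
  intro he
  rw [mem_quad3] at hv hw
  unfold val3 at he
  have hM1 : 1 ≤ n.sqrt := Nat.le_sqrt'.2 (by simpa using hn)
  have hM2 : n.sqrt ^ 2 ≤ n := Nat.sqrt_le' n
  have hb : ∀ a : ℕ, a ^ 2 ≤ n → 2 ^ a ≤ 2 ^ n.sqrt := fun a ha =>
    Nat.pow_le_pow_right (by norm_num) (Nat.le_sqrt'.2 ha)
  have b1 := hb v.1 (by omega)
  have b2 := hb v.2.1 (by omega)
  have b3 := hb v.2.2.1 (by omega)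
  have hp : 0 < 2 ^ n.sqrt := by positivity
  have he2 : ∀ e : ℕ, 2 ^ e ≤ 3 * 2 ^ n.sqrt → e ^ 2 ≤ 4 * n := by
    intro e hle
    have h1 : e ≤ n.sqrt + 1 := by
      by_contra hc
      have h2 : 2 ^ (n.sqrt + 2) ≤ 2 ^ e := Nat.pow_le_pow_right (by norm_num) (by omega)
      rw [pow_add] at h2
      omega
    have h3 : e ^ 2 ≤ (n.sqrt + 1) ^ 2 := Nat.pow_le_pow_left h1 2
    nlinarith
  have q1 : 0 < 2 ^ w.1 := by positivity
  have q2 : 0 < 2 ^ w.2.1 := by positivity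
  have q3 : 0 < 2 ^ w.2.2.1 := by positivity
  have c1 := he2 w.1 (by omega)
  have c2 := he2 w.2.1 (by omega)
  have c3 := he2 w.2.2.1 (by omega)
  have := h w.2.2.2 (by omega)
  omega

open Classical in
lemma below_eq (z : ℕ → ℕ) (A : Set ℕ) (n : ℕ → ℕ) (x : ℝ) (K : ℕ) :
    below z A n x K =
      ((Finset.range K).filter (fun k => (R A (n k) : ℝ) - E z (n k) ≤ x * √(V z (n k)))).card := by
  unfold below
  rw [← Set.ncard_coe_finset]
  congr 1
  ext k
  simp only [Set.mem_ofPred_eq, Finset.coe_filter, Finset.mem_range]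

lemma freq_core {Ω : Type} [MeasurableSpace Ω] (μ : Measure Ω) [IsProbabilityMeasure μ]
    (S : ℕ → Set Ω) (hS : ∀ m, MeasurableSet (S m)) (hind : iIndepSet S μ) (z : ℕ → ℕ) (G : ℕ → Prop)
    (hG : ∀ n, G n → Odd n)
    (hclt : ∀ x : ℝ, Tendsto (fun n : ℕ => μ.real {ω | (R {k | ω ∈ S k} n : ℝ) - E z n ≤ x * √(V z n)})
      (atTop ⊓ 𝓟 {n : ℕ | G n}) (𝓝 ((gaussianReal 0 1).real (Set.Iic x)))) : Freq μ S z G := by
  classical
  intro n hn hsep x
  have hmono : StrictMono n := strictMono_nat_of_lt_succ (fun k => by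
    have := hsep k (k + 1) (by omega) 0 (by simp)
    omega)
  have htop : Tendsto n atTop (atTop ⊓ 𝓟 {n : ℕ | G n}) :=
    tendsto_inf.2 ⟨hmono.tendsto_atTop, tendsto_principal.2 (Eventually.of_forall hn)⟩
  have hdisj : ∀ k l, k ≠ l → ∀ v ∈ quad3 (n k), ∀ w ∈ quad3 (n l), val3 v ≠ val3 w := by
    intro k l hkl v hv w hw
    rcases lt_or_gt_of_ne hkl with h | h
    · exact val_disj (hG _ (hn k)).pos (hsep k l h) hv hw
    · exact (val_disj (hG _ (hn l)).pos (hsep l k h) hw hv).symm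
  obtain ⟨D, hD⟩ : ∃ D : ℕ → Set Ω, D = fun k => {ω | Co S (quad3 (n k)) val3 ω ∈
      Set.Iic (E z (n k) + x * √(V z (n k)))} := ⟨_, rfl⟩
  have hDm : ∀ k ω, ω ∈ D k ↔ (R {m | ω ∈ S m} (n k) : ℝ) - E z (n k) ≤ x * √(V z (n k)) := by
    intro k ω
    rw [hD, Set.mem_ofPred_eq, Set.mem_Iic, R_eq]
    constructor <;> intro h <;> linarith
  have hind2 : iIndepSet D μ := by
    rw [hD]
    exact indep_blocks (μ := μ) hS hind (fun k => quad3 (n k)) val3 hdisj
      (fun k => Set.Iic (E z (n k) + x * √(V z (n k)))) (fun _ => measurableSet_Iic)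
  have hmeas : ∀ k, MeasurableSet (D k) := by
    intro k
    rw [hD]
    exact (Fs_le hS _) _ (Co_meas S (quad3 (n k)) val3 measurableSet_Iic)
  have hlim : Tendsto (fun k => μ.real (D k)) atTop (𝓝 ((gaussianReal 0 1).real (Set.Iic x))) := by
    refine ((hclt x).comp htop).congr fun k => ?_
    simp only [Function.comp_apply]
    congr 1
    ext ω
    rw [hDm, Set.mem_ofPred_eq]
  have h := freq_ae hmeas hind2 (gauss_pos0 x) hlim
  filter_upwards [h] with ω hω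
  refine hω.congr fun K => ?_
  congr 1
  rw [Co_range, below_eq, Finset.card_filter]
  push_cast
  refine Finset.sum_congr rfl fun k _ => ?_
  unfold I1
  by_cases hh : (R {m | ω ∈ S m} (n k) : ℝ) - E z (n k) ≤ x * √(V z (n k))
  · rw [if_pos hh, Set.indicator_of_mem ((hDm k ω).2 hh)]
  · rw [if_neg hh, Set.indicator_of_notMem (fun hc => hh ((hDm k ω).1 hc))]

/-- a separated sequence of odd numbers -/
def ns : ℕ → ℕ
  | 0 => 1
  | k + 1 => 4 * (12 * ns k) ^ 2 + 12 * ns k + 1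

lemma ns_odd : ∀ k, Odd (ns k)
  | 0 => ⟨0, rfl⟩
  | k + 1 => ⟨2 * (12 * ns k) ^ 2 + 6 * ns k, by rw [ns]; ring⟩

lemma ns_mono : StrictMono ns := strictMono_nat_of_lt_succ (fun k => by
  rw [ns]
  have := Nat.zero_le ((12 * ns k) ^ 2)
  omega)

lemma ns_gt : ∀ k, k < ns k
  | 0 => by rw [ns]; omega
  | k + 1 => by
    have h1 := ns_gt k
    have h2 : ns k < ns (k + 1) := ns_mono (by omega)
    omega

lemma ns_sep : Separated ns := by
  intro k l hkl w hw
  obtain ⟨j, rfl⟩ : ∃ j, l = j + 1 := ⟨l - 1, by omega⟩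
  have h1 : ns k ≤ ns j := ns_mono.monotone (by omega)
  rw [ns] at hw ⊢
  have h2 : w ≤ 12 * ns j := by
    by_contra hc
    have h3 : (12 * ns j + 1) ^ 2 ≤ w ^ 2 := Nat.pow_le_pow_left (by omega) 2
    have h4 : (12 * ns j + 1) ^ 2 = (12 * ns j) ^ 2 + 24 * ns j + 1 := by ring
    omega
  have h5 : w ^ 2 ≤ (12 * ns j) ^ 2 := Nat.pow_le_pow_left h2 2
  omega

lemma dense {Ω : Type} [MeasurableSpace Ω] (μ : Measure Ω) (S : ℕ → Set Ω) (z : ℕ → ℕ)
    (hfreq : Freq μ S z Odd) :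
    ∀ᵐ ω ∂μ, ∀ a b : ℝ, a < b → {n : ℕ | Odd n ∧ a * √(V z n) < (R {m | ω ∈ S m} n : ℝ) - E z n ∧
      (R {m | ω ∈ S m} n : ℝ) - E z n ≤ b * √(V z n)}.Infinite := by
  classical
  have h2 : ∀ᵐ ω ∂μ, ∀ r : ℚ, Tendsto (fun K : ℕ =>
      (below z {m | ω ∈ S m} ns (r : ℝ) K : ℝ) / K) atTop
      (𝓝 ((gaussianReal 0 1).real (Set.Iic (r : ℝ)))) := by
    rw [ae_all_iff]
    intro r
    exact hfreq ns ns_odd ns_sep (r : ℝ)
  filter_upwards [h2] with ω hω
  intro a b hab hfin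
  obtain ⟨r, hr1, hr2⟩ := exists_rat_btwn hab
  obtain ⟨s, hs1, hs2⟩ := exists_rat_btwn hr2
  obtain ⟨N, hN⟩ := hfin.bddAbove
  have hle : ∀ K : ℕ, (below z {m | ω ∈ S m} ns (s : ℝ) K : ℝ) / K -
      (below z {m | ω ∈ S m} ns (r : ℝ) K : ℝ) / K ≤ N / K := by
    intro K
    have h3 : below z {m | ω ∈ S m} ns (s : ℝ) K ≤ below z {m | ω ∈ S m} ns (r : ℝ) K + N := by
      rw [below_eq, below_eq]
      have h4 : (Finset.range K).filter (fun k => (R {m | ω ∈ S m} (ns k) : ℝ) - E z (ns k) ≤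
          s * √(V z (ns k))) ⊆
          (Finset.range K).filter (fun k => (R {m | ω ∈ S m} (ns k) : ℝ) - E z (ns k) ≤
          r * √(V z (ns k))) ∪ Finset.range N := by
        intro k hk
        obtain ⟨hk1, hk2⟩ := Finset.mem_filter.1 hk
        rw [Finset.mem_union]
        by_cases hk3 : (R {m | ω ∈ S m} (ns k) : ℝ) - E z (ns k) ≤ r * √(V z (ns k))
        · exact Or.inl (Finset.mem_filter.2 ⟨hk1, hk3⟩)
        · right
          push Not at hk3
          have hsq := Real.sqrt_nonneg (V z (ns k))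
          have hmem : ns k ∈ {n : ℕ | Odd n ∧ a * √(V z n) < (R {m | ω ∈ S m} n : ℝ) - E z n ∧
              (R {m | ω ∈ S m} n : ℝ) - E z n ≤ b * √(V z n)} := by
            refine ⟨ns_odd k, ?_, ?_⟩
            · exact lt_of_le_of_lt (mul_le_mul_of_nonneg_right hr1.le hsq) hk3
            · exact hk2.trans (mul_le_mul_of_nonneg_right hs2.le hsq)
          have h5 := hN hmem
          have h6 := ns_gt k
          rw [Finset.mem_range]
          omega
      calc _ ≤ _ := Finset.card_le_card h4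
        _ ≤ _ := Finset.card_union_le _ _
        _ = _ := by rw [Finset.card_range]
    have h7 : (below z {m | ω ∈ S m} ns (s : ℝ) K : ℝ) ≤
        below z {m | ω ∈ S m} ns (r : ℝ) K + N := by exact_mod_cast h3
    rw [← sub_div]
    exact div_le_div_of_nonneg_right (by linarith) (Nat.cast_nonneg _)
  have h8 := le_of_tendsto_of_tendsto' ((hω s).sub (hω r)) (tendsto_const_div_atTop_nhds_zero_nat (N : ℝ)) hle
  have h9 := gauss_pos hs1
  linarith

lemma growth (c : ℝ) (hc : 0 < c) : ∀ᶠ m : ℕ in atTop, (40 : ℝ) ≤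
    c * (Real.log (Real.log m) * Real.log (Real.log (Real.log m)) /
        Real.log (Real.log (Real.log (Real.log m)))) := by
  have ht : Tendsto (fun m : ℕ => Real.log (Real.log m)) atTop atTop :=
    Real.tendsto_log_atTop.comp (Real.tendsto_log_atTop.comp tendsto_natCast_atTop_atTop)
  have hu : Tendsto (fun m : ℕ => Real.log (Real.log (Real.log m))) atTop atTop :=
    Real.tendsto_log_atTop.comp ht
  filter_upwards [ht.eventually_ge_atTop (40 / c), ht.eventually_ge_atTop 0, hu.eventually_gt_atTop 1]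
    with m h1 h0 h2
  have h3 : 0 < Real.log (Real.log (Real.log (Real.log m))) := Real.log_pos h2
  have h4 : Real.log (Real.log (Real.log (Real.log m))) ≤ Real.log (Real.log (Real.log m)) :=
    Real.log_le_self (by linarith)
  have h5 : Real.log (Real.log m) ≤ Real.log (Real.log m) * Real.log (Real.log (Real.log m)) /
      Real.log (Real.log (Real.log (Real.log m))) := by
    rw [le_div_iff₀ h3]
    exact mul_le_mul_of_nonneg_left h4 h0
  rw [div_le_iff₀ hc] at h1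
  nlinarith

/-- **The distribution of the number of quadruples for one realisation.**  There is `c > 0` such that the
following holds.  Let `z(m)` be natural numbers, and let the events `S m` that `m` is chosen be independent, with
the probabilities `rho z m`, which is `min(1, ∏_{q ≤ z(m)} (1 - 1/q)⁻¹ / log m)` if `m` has no prime factor at most
`z(m)` and `0` otherwise.
(1) If `z m ≤ c t log t / log log t`, `t = log log m`, for all large `m`, then `Freq` holds for the odd `n`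
without exceptional primes in the range of the sieve.
(2) The same, if `z m ≤ c (log log m) ^ 2` for all large `m`, for those `n` which are not divisible by the
square of a prime between `c log n` and `(log n) ^ 2`.
(3) If `z m ≤ 40` for all `m`, then `Freq` holds for all odd `n`, and almost surely for all real `a < b` there are
infinitely many odd `n` with `a √V(n) < R(n) - E(n) ≤ b √V(n)`. -/
theorem result : ∃ c : ℝ, 0 < c ∧
    ∀ {Ω : Type} [MeasurableSpace Ω] (μ : Measure Ω) [IsProbabilityMeasure μ]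
    (S : ℕ → Set Ω) (_ : ∀ m, MeasurableSet (S m)) (_ : iIndepSet S μ) (z : ℕ → ℕ)
    (_ : ∀ m, μ.real (S m) = rho z m),
    ((∀ᶠ m : ℕ in atTop, (z m : ℝ) ≤ c * (Real.log (Real.log m) * Real.log (Real.log (Real.log m)) /
        Real.log (Real.log (Real.log (Real.log m))))) → Freq μ S z (Clear z)) ∧
    ((∀ᶠ m : ℕ in atTop, (z m : ℝ) ≤ c * Real.log (Real.log m) ^ 2) →
      Freq μ S z (fun n => Clear z n ∧ NoSquares c n)) ∧
    ((∀ m, z m ≤ 40) → Freq μ S z Odd ∧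
      ∀ᵐ ω ∂μ, ∀ a b : ℝ, a < b → {n : ℕ | Odd n ∧ a * √(V z n) < (R {m | ω ∈ S m} n : ℝ) - E z n ∧
        (R {m | ω ∈ S m} n : ℝ) - E z n ≤ b * √(V z n)}.Infinite) := by
  obtain ⟨c, hc, hg⟩ := gauss 1 one_pos
  refine ⟨c, hc, ?_⟩
  intro Ω _ μ _ S hS hind z hp
  obtain ⟨g1, g2, g3, -⟩ := hg μ S hS hind z hp
  have f1 : (∀ᶠ m : ℕ in atTop, (z m : ℝ) ≤ c * (Real.log (Real.log m) * Real.log (Real.log (Real.log m)) /
        Real.log (Real.log (Real.log (Real.log m))))) → Freq μ S z (Clear z) := fun h =>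
    freq_core μ S hS hind z _ (fun n hn => hn.1) (g1 h).1.2.1
  refine ⟨f1, fun h => freq_core μ S hS hind z _ (fun n hn => hn.1.1) (g2 h).1.2.1, fun h => ?_⟩
  have hz : ∀ᶠ m : ℕ in atTop, (z m : ℝ) ≤ c * (Real.log (Real.log m) * Real.log (Real.log (Real.log m)) /
        Real.log (Real.log (Real.log (Real.log m)))) := by
    filter_upwards [growth c hc] with m hm
    have : (z m : ℝ) ≤ 40 := by exact_mod_cast h m
    linarith
  have hO : Freq μ S z Odd := fun n hn hsep x => f1 hz n (fun k => g3 h (n k) (hn k)) hsep x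
  exact ⟨hO, dense μ S z hO⟩

end Pool.Agent.Results.MP_f6c7cf_nt.NormalFrequencies
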